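import Pool.Agent.helper70.CC.V1
set_option autoImplicit false
set_option maxRecDepth 100000
namespace Oct.CC
open Oct

theorem a1_0 : p1_0.all (colG (kcOf 2784 16 8) ch0 G0 H0 970558080017423032608012543132706704250937199211460609319729968971776 166153499473114484112975882535043072 617221900829349284139340014146121600221627531293321816649454807091576745288900341703538376704 false) = true := by decide +kernel

end Oct.CC
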