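import Pool.Agent.helper70.CC.V24
set_option autoImplicit false
set_option maxRecDepth 100000
namespace Oct.CC
open Oct

theorem a24_0 : p24_0.all (colG (kcOf 2880 16 8) ch2 G2 H2 617221900829349284139339043588041582798594923280778683942750556154377533828291021973569404928 10633823966279326983230456482242756608 617221900829349284139339043601205619257164571618018437403209360194239420753359660880358277120 false) = true := by decide +kernel

end Oct.CC
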