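import Pool.Agent.helper70.CC.V0
import Pool.Agent.helper70.CC.V1
set_option autoImplicit false
set_option maxRecDepth 100000
namespace Oct.CC
open Oct

theorem b0 : c0.all (colC gl) = true := by decide +kernel

theorem q0 : rootsL gl 0 c0 = r0 := by decide +kernel

theorem k0 : chkAll gl (c0.getD 0 col0) (c0.tail ++ [c1.getD 0 col0]) = true := by decide +kernel

end Oct.CC
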