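import Pool.Agent.helper70.CC.V0
import Pool.Agent.helper70.CC.V1
import Pool.Agent.helper70.CC.V2
set_option autoImplicit false
set_option maxRecDepth 100000
namespace Oct.CC
open Oct

theorem b1 : c1.all (colC gl) = true := by decide +kernel

theorem q1 : rootsL gl 14 c1 = r1 := by decide +kernel

theorem k1 : chkAll gl (c0.getLastD col0) (c1 ++ [c2.getD 0 col0]) = true := by decide +kernel

end Oct.CC
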