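import Pool.Agent.helper70.CC.V9
import Pool.Agent.helper70.CC.V10
import Pool.Agent.helper70.CC.V11
set_option autoImplicit false
set_option maxRecDepth 100000
namespace Oct.CC
open Oct

theorem b10 : c10.all (colC gl) = true := by decide +kernel

theorem q10 : rootsL gl 110 c10 = r10 := by decide +kernel

theorem k10 : chkAll gl (c9.getLastD col0) (c10 ++ [c11.getD 0 col0]) = true := by decide +kernel

end Oct.CC
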