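import Pool.Agent.helper70.CC.V10
import Pool.Agent.helper70.CC.V11
import Pool.Agent.helper70.CC.V12
set_option autoImplicit false
set_option maxRecDepth 100000
namespace Oct.CC
open Oct

theorem b11 : c11.all (colC gl) = true := by decide +kernel

theorem q11 : rootsL gl 122 c11 = r11 := by decide +kernel

theorem k11 : chkAll gl (c10.getLastD col0) (c11 ++ [c12.getD 0 col0]) = true := by decide +kernel

end Oct.CC
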