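import Pool.Agent.helper70.CC.V11
import Pool.Agent.helper70.CC.V12
import Pool.Agent.helper70.CC.V13
set_option autoImplicit false
set_option maxRecDepth 100000
namespace Oct.CC
open Oct

theorem b12 : c12.all (colC gl) = true := by decide +kernel

theorem q12 : rootsL gl 136 c12 = r12 := by decide +kernel

theorem k12 : chkAll gl (c11.getLastD col0) (c12 ++ [c13.getD 0 col0]) = true := by decide +kernel

end Oct.CC
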