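import Pool.Agent.helper70.CC.V12
import Pool.Agent.helper70.CC.V13
import Pool.Agent.helper70.CC.V14
set_option autoImplicit false
set_option maxRecDepth 100000
namespace Oct.CC
open Oct

theorem b13 : c13.all (colC gl) = true := by decide +kernel

theorem q13 : rootsL gl 150 c13 = r13 := by decide +kernel

theorem k13 : chkAll gl (c12.getLastD col0) (c13 ++ [c14.getD 0 col0]) = true := by decide +kernel

end Oct.CC
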