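import Pool.Agent.helper70.CC.V13
import Pool.Agent.helper70.CC.V14
import Pool.Agent.helper70.CC.V15
set_option autoImplicit false
set_option maxRecDepth 100000
namespace Oct.CC
open Oct

theorem b14 : c14.all (colC gl) = true := by decide +kernel

theorem q14 : rootsL gl 164 c14 = r14 := by decide +kernel

theorem k14 : chkAll gl (c13.getLastD col0) (c14 ++ [c15.getD 0 col0]) = true := by decide +kernel

end Oct.CC
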