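import Pool.Agent.helper70.CC.V14
import Pool.Agent.helper70.CC.V15
import Pool.Agent.helper70.CC.V16
set_option autoImplicit false
set_option maxRecDepth 100000
namespace Oct.CC
open Oct

theorem b15 : c15.all (colC gl) = true := by decide +kernel

theorem q15 : rootsL gl 178 c15 = r15 := by decide +kernel

theorem k15 : chkAll gl (c14.getLastD col0) (c15 ++ [c16.getD 0 col0]) = true := by decide +kernel

end Oct.CC
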