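import Pool.Agent.helper70.CC.V15
import Pool.Agent.helper70.CC.V16
import Pool.Agent.helper70.CC.V17
set_option autoImplicit false
set_option maxRecDepth 100000
namespace Oct.CC
open Oct

theorem b16 : c16.all (colC gl) = true := by decide +kernel

theorem q16 : rootsL gl 192 c16 = r16 := by decide +kernel

theorem k16 : chkAll gl (c15.getLastD col0) (c16 ++ [c17.getD 0 col0]) = true := by decide +kernel

end Oct.CC
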