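import Pool.Agent.helper70.CC.V16
import Pool.Agent.helper70.CC.V17
import Pool.Agent.helper70.CC.V18
set_option autoImplicit false
set_option maxRecDepth 100000
namespace Oct.CC
open Oct

theorem b17 : c17.all (colC gl) = true := by decide +kernel

theorem q17 : rootsL gl 206 c17 = r17 := by decide +kernel

theorem k17 : chkAll gl (c16.getLastD col0) (c17 ++ [c18.getD 0 col0]) = true := by decide +kernel

end Oct.CC
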