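import Pool.Agent.helper70.CC.V17
import Pool.Agent.helper70.CC.V18
import Pool.Agent.helper70.CC.V19
set_option autoImplicit false
set_option maxRecDepth 100000
namespace Oct.CC
open Oct

theorem b18 : c18.all (colC gl) = true := by decide +kernel

theorem q18 : rootsL gl 220 c18 = r18 := by decide +kernel

theorem k18 : chkAll gl (c17.getLastD col0) (c18 ++ [c19.getD 0 col0]) = true := by decide +kernel

end Oct.CC
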