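import Pool.Agent.helper70.CC.V18
import Pool.Agent.helper70.CC.V19
import Pool.Agent.helper70.CC.V20
set_option autoImplicit false
set_option maxRecDepth 100000
namespace Oct.CC
open Oct

theorem b19 : c19.all (colC gl) = true := by decide +kernel

theorem q19 : rootsL gl 233 c19 = r19 := by decide +kernel

theorem k19 : chkAll gl (c18.getLastD col0) (c19 ++ [c20.getD 0 col0]) = true := by decide +kernel

end Oct.CC
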