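import Pool.Agent.helper70.CC.V1
import Pool.Agent.helper70.CC.V2
import Pool.Agent.helper70.CC.V3
set_option autoImplicit false
set_option maxRecDepth 100000
namespace Oct.CC
open Oct

theorem b2 : c2.all (colC gl) = true := by decide +kernel

theorem q2 : rootsL gl 26 c2 = r2 := by decide +kernel

theorem k2 : chkAll gl (c1.getLastD col0) (c2 ++ [c3.getD 0 col0]) = true := by decide +kernel

end Oct.CC
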