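import Pool.Agent.helper70.CC.V19
import Pool.Agent.helper70.CC.V20
import Pool.Agent.helper70.CC.V21
set_option autoImplicit false
set_option maxRecDepth 100000
namespace Oct.CC
open Oct

theorem b20 : c20.all (colC gl) = true := by decide +kernel

theorem q20 : rootsL gl 245 c20 = r20 := by decide +kernel

theorem k20 : chkAll gl (c19.getLastD col0) (c20 ++ [c21.getD 0 col0]) = true := by decide +kernel

end Oct.CC
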