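import Pool.Agent.helper70.CC.V20
import Pool.Agent.helper70.CC.V21
import Pool.Agent.helper70.CC.V22
set_option autoImplicit false
set_option maxRecDepth 100000
namespace Oct.CC
open Oct

theorem b21 : c21.all (colC gl) = true := by decide +kernel

theorem q21 : rootsL gl 257 c21 = r21 := by decide +kernel

theorem k21 : chkAll gl (c20.getLastD col0) (c21 ++ [c22.getD 0 col0]) = true := by decide +kernel

end Oct.CC
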