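import Pool.Agent.helper70.CC.V21
import Pool.Agent.helper70.CC.V22
import Pool.Agent.helper70.CC.V23
set_option autoImplicit false
set_option maxRecDepth 100000
namespace Oct.CC
open Oct

theorem b22 : c22.all (colC gl) = true := by decide +kernel

theorem q22 : rootsL gl 271 c22 = r22 := by decide +kernel

theorem k22 : chkAll gl (c21.getLastD col0) (c22 ++ [c23.getD 0 col0]) = true := by decide +kernel

end Oct.CC
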