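import Pool.Agent.helper70.CC.V22
import Pool.Agent.helper70.CC.V23
import Pool.Agent.helper70.CC.V24
set_option autoImplicit false
set_option maxRecDepth 100000
namespace Oct.CC
open Oct

theorem b23 : c23.all (colC gl) = true := by decide +kernel

theorem q23 : rootsL gl 285 c23 = r23 := by decide +kernel

theorem k23 : chkAll gl (c22.getLastD col0) (c23 ++ [c24.getD 0 col0]) = true := by decide +kernel

end Oct.CC
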