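import Pool.Agent.helper70.CC.V23
import Pool.Agent.helper70.CC.V24
import Pool.Agent.helper70.CC.V25
set_option autoImplicit false
set_option maxRecDepth 100000
namespace Oct.CC
open Oct

theorem b24 : c24.all (colC gl) = true := by decide +kernel

theorem q24 : rootsL gl 297 c24 = r24 := by decide +kernel

theorem k24 : chkAll gl (c23.getLastD col0) (c24 ++ [c25.getD 0 col0]) = true := by decide +kernel

end Oct.CC
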