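import Pool.Agent.helper70.CC.V24
import Pool.Agent.helper70.CC.V25
import Pool.Agent.helper70.CC.V26
set_option autoImplicit false
set_option maxRecDepth 100000
namespace Oct.CC
open Oct

theorem b25 : c25.all (colC gl) = true := by decide +kernel

theorem q25 : rootsL gl 311 c25 = r25 := by decide +kernel

theorem k25 : chkAll gl (c24.getLastD col0) (c25 ++ [c26.getD 0 col0]) = true := by decide +kernel

end Oct.CC
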