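import Pool.Agent.helper70.CC.V25
import Pool.Agent.helper70.CC.V26
import Pool.Agent.helper70.CC.V27
set_option autoImplicit false
set_option maxRecDepth 100000
namespace Oct.CC
open Oct

theorem b26 : c26.all (colC gl) = true := by decide +kernel

theorem q26 : rootsL gl 325 c26 = r26 := by decide +kernel

theorem k26 : chkAll gl (c25.getLastD col0) (c26 ++ [c27.getD 0 col0]) = true := by decide +kernel

end Oct.CC
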