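import Pool.Agent.helper70.CC.V26
import Pool.Agent.helper70.CC.V27
import Pool.Agent.helper70.CC.V28
set_option autoImplicit false
set_option maxRecDepth 100000
namespace Oct.CC
open Oct

theorem b27 : c27.all (colC gl) = true := by decide +kernel

theorem q27 : rootsL gl 336 c27 = r27 := by decide +kernel

theorem k27 : chkAll gl (c26.getLastD col0) (c27 ++ [c28.getD 0 col0]) = true := by decide +kernel

end Oct.CC
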