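import Pool.Agent.helper70.CC.V27
import Pool.Agent.helper70.CC.V28
import Pool.Agent.helper70.CC.V29
set_option autoImplicit false
set_option maxRecDepth 100000
namespace Oct.CC
open Oct

theorem b28 : c28.all (colC gl) = true := by decide +kernel

theorem q28 : rootsL gl 348 c28 = r28 := by decide +kernel

theorem k28 : chkAll gl (c27.getLastD col0) (c28 ++ [c29.getD 0 col0]) = true := by decide +kernel

end Oct.CC
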