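import Pool.Agent.helper70.CC.V2
import Pool.Agent.helper70.CC.V3
import Pool.Agent.helper70.CC.V4
set_option autoImplicit false
set_option maxRecDepth 100000
namespace Oct.CC
open Oct

theorem b3 : c3.all (colC gl) = true := by decide +kernel

theorem q3 : rootsL gl 37 c3 = r3 := by decide +kernel

theorem k3 : chkAll gl (c2.getLastD col0) (c3 ++ [c4.getD 0 col0]) = true := by decide +kernel

end Oct.CC
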