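import Pool.Agent.helper70.CC.V29
import Pool.Agent.helper70.CC.V30
import Pool.Agent.helper70.CC.V31
set_option autoImplicit false
set_option maxRecDepth 100000
namespace Oct.CC
open Oct

theorem b30 : c30.all (colC gl) = true := by decide +kernel

theorem q30 : rootsL gl 370 c30 = r30 := by decide +kernel

theorem k30 : chkAll gl (c29.getLastD col0) (c30 ++ [c31.getD 0 col0]) = true := by decide +kernel

end Oct.CC
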