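import Pool.Agent.helper70.CC.V30
import Pool.Agent.helper70.CC.V31
import Pool.Agent.helper70.CC.V32
set_option autoImplicit false
set_option maxRecDepth 100000
namespace Oct.CC
open Oct

theorem b31 : c31.all (colC gl) = true := by decide +kernel

theorem q31 : rootsL gl 381 c31 = r31 := by decide +kernel

theorem k31 : chkAll gl (c30.getLastD col0) (c31 ++ [c32.getD 0 col0]) = true := by decide +kernel

end Oct.CC
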