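import Pool.Agent.helper70.CC.V31
import Pool.Agent.helper70.CC.V32
import Pool.Agent.helper70.CC.V33
set_option autoImplicit false
set_option maxRecDepth 100000
namespace Oct.CC
open Oct

theorem b32 : c32.all (colC gl) = true := by decide +kernel

theorem q32 : rootsL gl 390 c32 = r32 := by decide +kernel

theorem k32 : chkAll gl (c31.getLastD col0) (c32 ++ [c33.getD 0 col0]) = true := by decide +kernel

end Oct.CC
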