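import Pool.Agent.helper70.CC.V32
import Pool.Agent.helper70.CC.V33
import Pool.Agent.helper70.CC.V34
set_option autoImplicit false
set_option maxRecDepth 100000
namespace Oct.CC
open Oct

theorem b33 : c33.all (colC gl) = true := by decide +kernel

theorem q33 : rootsL gl 398 c33 = r33 := by decide +kernel

theorem k33 : chkAll gl (c32.getLastD col0) (c33 ++ [c34.getD 0 col0]) = true := by decide +kernel

end Oct.CC
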