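import Pool.Agent.helper70.CC.V33
import Pool.Agent.helper70.CC.V34
import Pool.Agent.helper70.CC.V35
set_option autoImplicit false
set_option maxRecDepth 100000
namespace Oct.CC
open Oct

theorem b34 : c34.all (colC gl) = true := by decide +kernel

theorem q34 : rootsL gl 410 c34 = r34 := by decide +kernel

theorem k34 : chkAll gl (c33.getLastD col0) (c34 ++ [c35.getD 0 col0]) = true := by decide +kernel

end Oct.CC
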