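import Pool.Agent.helper70.CC.V34
import Pool.Agent.helper70.CC.V35
import Pool.Agent.helper70.CC.V36
set_option autoImplicit false
set_option maxRecDepth 100000
namespace Oct.CC
open Oct

theorem b35 : c35.all (colC gl) = true := by decide +kernel

theorem q35 : rootsL gl 419 c35 = r35 := by decide +kernel

theorem k35 : chkAll gl (c34.getLastD col0) (c35 ++ [c36.getD 0 col0]) = true := by decide +kernel

end Oct.CC
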