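import Pool.Agent.helper70.CC.V35
import Pool.Agent.helper70.CC.V36
import Pool.Agent.helper70.CC.V37
set_option autoImplicit false
set_option maxRecDepth 100000
namespace Oct.CC
open Oct

theorem b36 : c36.all (colC gl) = true := by decide +kernel

theorem q36 : rootsL gl 430 c36 = r36 := by decide +kernel

theorem k36 : chkAll gl (c35.getLastD col0) (c36 ++ [c37.getD 0 col0]) = true := by decide +kernel

end Oct.CC
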