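import Pool.Agent.helper70.CC.V36
import Pool.Agent.helper70.CC.V37
import Pool.Agent.helper70.CC.V38
set_option autoImplicit false
set_option maxRecDepth 100000
namespace Oct.CC
open Oct

theorem b37 : c37.all (colC gl) = true := by decide +kernel

theorem q37 : rootsL gl 441 c37 = r37 := by decide +kernel

theorem k37 : chkAll gl (c36.getLastD col0) (c37 ++ [c38.getD 0 col0]) = true := by decide +kernel

end Oct.CC
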