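import Pool.Agent.helper70.CC.V37
import Pool.Agent.helper70.CC.V38
import Pool.Agent.helper70.CC.V39
set_option autoImplicit false
set_option maxRecDepth 100000
namespace Oct.CC
open Oct

theorem b38 : c38.all (colC gl) = true := by decide +kernel

theorem q38 : rootsL gl 451 c38 = r38 := by decide +kernel

theorem k38 : chkAll gl (c37.getLastD col0) (c38 ++ [c39.getD 0 col0]) = true := by decide +kernel

end Oct.CC
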