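import Pool.Agent.helper70.CC.V3
import Pool.Agent.helper70.CC.V4
import Pool.Agent.helper70.CC.V5
set_option autoImplicit false
set_option maxRecDepth 100000
namespace Oct.CC
open Oct

theorem b4 : c4.all (colC gl) = true := by decide +kernel

theorem q4 : rootsL gl 48 c4 = r4 := by decide +kernel

theorem k4 : chkAll gl (c3.getLastD col0) (c4 ++ [c5.getD 0 col0]) = true := by decide +kernel

end Oct.CC
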