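import Pool.Agent.helper70.CC.V39
import Pool.Agent.helper70.CC.V40
import Pool.Agent.helper70.CC.V41
set_option autoImplicit false
set_option maxRecDepth 100000
namespace Oct.CC
open Oct

theorem b40 : c40.all (colC gl) = true := by decide +kernel

theorem q40 : rootsL gl 471 c40 = r40 := by decide +kernel

theorem k40 : chkAll gl (c39.getLastD col0) (c40 ++ [c41.getD 0 col0]) = true := by decide +kernel

end Oct.CC
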