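import Pool.Agent.helper70.CC.V40
import Pool.Agent.helper70.CC.V41
import Pool.Agent.helper70.CC.V42
set_option autoImplicit false
set_option maxRecDepth 100000
namespace Oct.CC
open Oct

theorem b41 : c41.all (colC gl) = true := by decide +kernel

theorem q41 : rootsL gl 481 c41 = r41 := by decide +kernel

theorem k41 : chkAll gl (c40.getLastD col0) (c41 ++ [c42.getD 0 col0]) = true := by decide +kernel

end Oct.CC
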