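import Pool.Agent.helper70.CC.V41
import Pool.Agent.helper70.CC.V42
import Pool.Agent.helper70.CC.V43
set_option autoImplicit false
set_option maxRecDepth 100000
namespace Oct.CC
open Oct

theorem b42 : c42.all (colC gl) = true := by decide +kernel

theorem q42 : rootsL gl 491 c42 = r42 := by decide +kernel

theorem k42 : chkAll gl (c41.getLastD col0) (c42 ++ [c43.getD 0 col0]) = true := by decide +kernel

end Oct.CC
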