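import Pool.Agent.helper70.CC.V42
import Pool.Agent.helper70.CC.V43
import Pool.Agent.helper70.CC.V44
set_option autoImplicit false
set_option maxRecDepth 100000
namespace Oct.CC
open Oct

theorem b43 : c43.all (colC gl) = true := by decide +kernel

theorem q43 : rootsL gl 501 c43 = r43 := by decide +kernel

theorem k43 : chkAll gl (c42.getLastD col0) (c43 ++ [c44.getD 0 col0]) = true := by decide +kernel

end Oct.CC
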