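import Pool.Agent.helper70.CC.V43
import Pool.Agent.helper70.CC.V44
import Pool.Agent.helper70.CC.V45
set_option autoImplicit false
set_option maxRecDepth 100000
namespace Oct.CC
open Oct

theorem b44 : c44.all (colC gl) = true := by decide +kernel

theorem q44 : rootsL gl 511 c44 = r44 := by decide +kernel

theorem k44 : chkAll gl (c43.getLastD col0) (c44 ++ [c45.getD 0 col0]) = true := by decide +kernel

end Oct.CC
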