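import Pool.Agent.helper70.CC.V44
import Pool.Agent.helper70.CC.V45
import Pool.Agent.helper70.CC.V46
set_option autoImplicit false
set_option maxRecDepth 100000
namespace Oct.CC
open Oct

theorem b45 : c45.all (colC gl) = true := by decide +kernel

theorem q45 : rootsL gl 521 c45 = r45 := by decide +kernel

theorem k45 : chkAll gl (c44.getLastD col0) (c45 ++ [c46.getD 0 col0]) = true := by decide +kernel

end Oct.CC
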