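import Pool.Agent.helper70.CC.V45
import Pool.Agent.helper70.CC.V46
import Pool.Agent.helper70.CC.V47
set_option autoImplicit false
set_option maxRecDepth 100000
namespace Oct.CC
open Oct

theorem b46 : c46.all (colC gl) = true := by decide +kernel

theorem q46 : rootsL gl 531 c46 = r46 := by decide +kernel

theorem k46 : chkAll gl (c45.getLastD col0) (c46 ++ [c47.getD 0 col0]) = true := by decide +kernel

end Oct.CC
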