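import Pool.Agent.helper70.CC.V46
import Pool.Agent.helper70.CC.V47
import Pool.Agent.helper70.CC.V48
set_option autoImplicit false
set_option maxRecDepth 100000
namespace Oct.CC
open Oct

theorem b47 : c47.all (colC gl) = true := by decide +kernel

theorem q47 : rootsL gl 541 c47 = r47 := by decide +kernel

theorem k47 : chkAll gl (c46.getLastD col0) (c47 ++ [c48.getD 0 col0]) = true := by decide +kernel

end Oct.CC
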