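import Pool.Agent.helper70.CC.V47
import Pool.Agent.helper70.CC.V48
import Pool.Agent.helper70.CC.V49
set_option autoImplicit false
set_option maxRecDepth 100000
namespace Oct.CC
open Oct

theorem b48 : c48.all (colC gl) = true := by decide +kernel

theorem q48 : rootsL gl 551 c48 = r48 := by decide +kernel

theorem k48 : chkAll gl (c47.getLastD col0) (c48 ++ [c49.getD 0 col0]) = true := by decide +kernel

end Oct.CC
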