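import Pool.Agent.helper70.CC.V48
import Pool.Agent.helper70.CC.V49
import Pool.Agent.helper70.CC.V50
set_option autoImplicit false
set_option maxRecDepth 100000
namespace Oct.CC
open Oct

theorem b49 : c49.all (colC gl) = true := by decide +kernel

theorem q49 : rootsL gl 561 c49 = r49 := by decide +kernel

theorem k49 : chkAll gl (c48.getLastD col0) (c49 ++ [c50.getD 0 col0]) = true := by decide +kernel

end Oct.CC
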