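import Pool.Agent.helper70.CC.V49
import Pool.Agent.helper70.CC.V50
import Pool.Agent.helper70.CC.V51
set_option autoImplicit false
set_option maxRecDepth 100000
namespace Oct.CC
open Oct

theorem b50 : c50.all (colC gl) = true := by decide +kernel

theorem q50 : rootsL gl 571 c50 = r50 := by decide +kernel

theorem k50 : chkAll gl (c49.getLastD col0) (c50 ++ [c51.getD 0 col0]) = true := by decide +kernel

end Oct.CC
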