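import Pool.Agent.helper70.CC.V50
import Pool.Agent.helper70.CC.V51
import Pool.Agent.helper70.CC.V52
set_option autoImplicit false
set_option maxRecDepth 100000
namespace Oct.CC
open Oct

theorem b51 : c51.all (colC gl) = true := by decide +kernel

theorem q51 : rootsL gl 581 c51 = r51 := by decide +kernel

theorem k51 : chkAll gl (c50.getLastD col0) (c51 ++ [c52.getD 0 col0]) = true := by decide +kernel

end Oct.CC
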