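import Pool.Agent.helper70.CC.V51
import Pool.Agent.helper70.CC.V52
import Pool.Agent.helper70.CC.V53
set_option autoImplicit false
set_option maxRecDepth 100000
namespace Oct.CC
open Oct

theorem b52 : c52.all (colC gl) = true := by decide +kernel

theorem q52 : rootsL gl 591 c52 = r52 := by decide +kernel

theorem k52 : chkAll gl (c51.getLastD col0) (c52 ++ [c53.getD 0 col0]) = true := by decide +kernel

end Oct.CC
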