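import Pool.Agent.helper70.CC.V52
import Pool.Agent.helper70.CC.V53
import Pool.Agent.helper70.CC.V54
set_option autoImplicit false
set_option maxRecDepth 100000
namespace Oct.CC
open Oct

theorem b53 : c53.all (colC gl) = true := by decide +kernel

theorem q53 : rootsL gl 601 c53 = r53 := by decide +kernel

theorem k53 : chkAll gl (c52.getLastD col0) (c53 ++ [c54.getD 0 col0]) = true := by decide +kernel

end Oct.CC
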