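import Pool.Agent.helper70.CC.V53
import Pool.Agent.helper70.CC.V54
import Pool.Agent.helper70.CC.V55
set_option autoImplicit false
set_option maxRecDepth 100000
namespace Oct.CC
open Oct

theorem b54 : c54.all (colC gl) = true := by decide +kernel

theorem q54 : rootsL gl 611 c54 = r54 := by decide +kernel

theorem k54 : chkAll gl (c53.getLastD col0) (c54 ++ [c55.getD 0 col0]) = true := by decide +kernel

end Oct.CC
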