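import Pool.Agent.helper70.CC.V54
import Pool.Agent.helper70.CC.V55
import Pool.Agent.helper70.CC.V56
set_option autoImplicit false
set_option maxRecDepth 100000
namespace Oct.CC
open Oct

theorem b55 : c55.all (colC gl) = true := by decide +kernel

theorem q55 : rootsL gl 621 c55 = r55 := by decide +kernel

theorem k55 : chkAll gl (c54.getLastD col0) (c55 ++ [c56.getD 0 col0]) = true := by decide +kernel

end Oct.CC
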