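import Pool.Agent.helper70.CC.V55
import Pool.Agent.helper70.CC.V56
import Pool.Agent.helper70.CC.V57
set_option autoImplicit false
set_option maxRecDepth 100000
namespace Oct.CC
open Oct

theorem b56 : c56.all (colC gl) = true := by decide +kernel

theorem q56 : rootsL gl 633 c56 = r56 := by decide +kernel

theorem k56 : chkAll gl (c55.getLastD col0) (c56 ++ [c57.getD 0 col0]) = true := by decide +kernel

end Oct.CC
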