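import Pool.Agent.helper70.CC.V56
import Pool.Agent.helper70.CC.V57
import Pool.Agent.helper70.CC.V58
set_option autoImplicit false
set_option maxRecDepth 100000
namespace Oct.CC
open Oct

theorem b57 : c57.all (colC gl) = true := by decide +kernel

theorem q57 : rootsL gl 646 c57 = r57 := by decide +kernel

theorem k57 : chkAll gl (c56.getLastD col0) (c57 ++ [c58.getD 0 col0]) = true := by decide +kernel

end Oct.CC
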