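import Pool.Agent.helper70.CC.V57
import Pool.Agent.helper70.CC.V58
import Pool.Agent.helper70.CC.V59
set_option autoImplicit false
set_option maxRecDepth 100000
namespace Oct.CC
open Oct

theorem b58 : c58.all (colC gl) = true := by decide +kernel

theorem q58 : rootsL gl 659 c58 = r58 := by decide +kernel

theorem k58 : chkAll gl (c57.getLastD col0) (c58 ++ [c59.getD 0 col0]) = true := by decide +kernel

end Oct.CC
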