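import Pool.Agent.helper70.CC.V58
import Pool.Agent.helper70.CC.V59
import Pool.Agent.helper70.CC.V60
set_option autoImplicit false
set_option maxRecDepth 100000
namespace Oct.CC
open Oct

theorem b59 : c59.all (colC gl) = true := by decide +kernel

theorem q59 : rootsL gl 671 c59 = r59 := by decide +kernel

theorem k59 : chkAll gl (c58.getLastD col0) (c59 ++ [c60.getD 0 col0]) = true := by decide +kernel

end Oct.CC
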