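import Pool.Agent.helper70.CC.V5
import Pool.Agent.helper70.CC.V6
import Pool.Agent.helper70.CC.V7
set_option autoImplicit false
set_option maxRecDepth 100000
namespace Oct.CC
open Oct

theorem b6 : c6.all (colC gl) = true := by decide +kernel

theorem q6 : rootsL gl 70 c6 = r6 := by decide +kernel

theorem k6 : chkAll gl (c5.getLastD col0) (c6 ++ [c7.getD 0 col0]) = true := by decide +kernel

end Oct.CC
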