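import Pool.Agent.helper70.CC.V59
import Pool.Agent.helper70.CC.V60
import Pool.Agent.helper70.CC.V61
set_option autoImplicit false
set_option maxRecDepth 100000
namespace Oct.CC
open Oct

theorem b60 : c60.all (colC gl) = true := by decide +kernel

theorem q60 : rootsL gl 683 c60 = r60 := by decide +kernel

theorem k60 : chkAll gl (c59.getLastD col0) (c60 ++ [c61.getD 0 col0]) = true := by decide +kernel

end Oct.CC
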