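import Pool.Agent.helper70.CC.V60
import Pool.Agent.helper70.CC.V61
import Pool.Agent.helper70.CC.V62
set_option autoImplicit false
set_option maxRecDepth 100000
namespace Oct.CC
open Oct

theorem b61 : c61.all (colC gl) = true := by decide +kernel

theorem q61 : rootsL gl 691 c61 = r61 := by decide +kernel

theorem k61 : chkAll gl (c60.getLastD col0) (c61 ++ [c62.getD 0 col0]) = true := by decide +kernel

end Oct.CC
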