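import Pool.Agent.helper70.CC.V61
import Pool.Agent.helper70.CC.V62
import Pool.Agent.helper70.CC.V63
set_option autoImplicit false
set_option maxRecDepth 100000
namespace Oct.CC
open Oct

theorem b62 : c62.all (colC gl) = true := by decide +kernel

theorem q62 : rootsL gl 699 c62 = r62 := by decide +kernel

theorem k62 : chkAll gl (c61.getLastD col0) (c62 ++ [c63.getD 0 col0]) = true := by decide +kernel

end Oct.CC
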