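import Pool.Agent.helper70.CC.V63
import Pool.Agent.helper70.CC.V64
import Pool.Agent.helper70.CC.V65
set_option autoImplicit false
set_option maxRecDepth 100000
namespace Oct.CC
open Oct

theorem b64 : c64.all (colC gl) = true := by decide +kernel

theorem q64 : rootsL gl 722 c64 = r64 := by decide +kernel

theorem k64 : chkAll gl (c63.getLastD col0) (c64 ++ [c65.getD 0 col0]) = true := by decide +kernel

end Oct.CC
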