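import Pool.Agent.helper70.CC.V64
import Pool.Agent.helper70.CC.V65
import Pool.Agent.helper70.CC.V66
set_option autoImplicit false
set_option maxRecDepth 100000
namespace Oct.CC
open Oct

theorem b65 : c65.all (colC gl) = true := by decide +kernel

theorem q65 : rootsL gl 734 c65 = r65 := by decide +kernel

theorem k65 : chkAll gl (c64.getLastD col0) (c65 ++ [c66.getD 0 col0]) = true := by decide +kernel

end Oct.CC
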