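import Pool.Agent.helper70.CC.V65
import Pool.Agent.helper70.CC.V66
import Pool.Agent.helper70.CC.V67
set_option autoImplicit false
set_option maxRecDepth 100000
namespace Oct.CC
open Oct

theorem b66 : c66.all (colC gl) = true := by decide +kernel

theorem q66 : rootsL gl 746 c66 = r66 := by decide +kernel

theorem k66 : chkAll gl (c65.getLastD col0) (c66 ++ [c67.getD 0 col0]) = true := by decide +kernel

end Oct.CC
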