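import Pool.Agent.helper70.CC.V66
import Pool.Agent.helper70.CC.V67
import Pool.Agent.helper70.CC.V68
set_option autoImplicit false
set_option maxRecDepth 100000
namespace Oct.CC
open Oct

theorem b67 : c67.all (colC gl) = true := by decide +kernel

theorem q67 : rootsL gl 758 c67 = r67 := by decide +kernel

theorem k67 : chkAll gl (c66.getLastD col0) (c67 ++ [c68.getD 0 col0]) = true := by decide +kernel

end Oct.CC
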