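import Pool.Agent.helper70.CC.V68
import Pool.Agent.helper70.CC.V69
import Pool.Agent.helper70.CC.V70
set_option autoImplicit false
set_option maxRecDepth 100000
namespace Oct.CC
open Oct

theorem b69 : c69.all (colC gl) = true := by decide +kernel

theorem q69 : rootsL gl 784 c69 = r69 := by decide +kernel

theorem k69 : chkAll gl (c68.getLastD col0) (c69 ++ [c70.getD 0 col0]) = true := by decide +kernel

end Oct.CC
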