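import Pool.Agent.helper70.CC.V6
import Pool.Agent.helper70.CC.V7
import Pool.Agent.helper70.CC.V8
set_option autoImplicit false
set_option maxRecDepth 100000
namespace Oct.CC
open Oct

theorem b7 : c7.all (colC gl) = true := by decide +kernel

theorem q7 : rootsL gl 79 c7 = r7 := by decide +kernel

theorem k7 : chkAll gl (c6.getLastD col0) (c7 ++ [c8.getD 0 col0]) = true := by decide +kernel

end Oct.CC
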