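import Pool.Agent.helper70.CC.V69
import Pool.Agent.helper70.CC.V70
import Pool.Agent.helper70.CC.V71
set_option autoImplicit false
set_option maxRecDepth 100000
namespace Oct.CC
open Oct

theorem b70 : c70.all (colC gl) = true := by decide +kernel

theorem q70 : rootsL gl 797 c70 = r70 := by decide +kernel

theorem k70 : chkAll gl (c69.getLastD col0) (c70 ++ [c71.getD 0 col0]) = true := by decide +kernel

end Oct.CC
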