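import Pool.Agent.helper70.CC.V70
import Pool.Agent.helper70.CC.V71
import Pool.Agent.helper70.CC.V72
set_option autoImplicit false
set_option maxRecDepth 100000
namespace Oct.CC
open Oct

theorem b71 : c71.all (colC gl) = true := by decide +kernel

theorem q71 : rootsL gl 810 c71 = r71 := by decide +kernel

theorem k71 : chkAll gl (c70.getLastD col0) (c71 ++ [c72.getD 0 col0]) = true := by decide +kernel

end Oct.CC
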