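import Pool.Agent.helper70.CC.V71
import Pool.Agent.helper70.CC.V72
import Pool.Agent.helper70.CC.V73
set_option autoImplicit false
set_option maxRecDepth 100000
namespace Oct.CC
open Oct

theorem b72 : c72.all (colC gl) = true := by decide +kernel

theorem q72 : rootsL gl 822 c72 = r72 := by decide +kernel

theorem k72 : chkAll gl (c71.getLastD col0) (c72 ++ [c73.getD 0 col0]) = true := by decide +kernel

end Oct.CC
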