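import Pool.Agent.helper70.CC.V72
import Pool.Agent.helper70.CC.V73
import Pool.Agent.helper70.CC.V74
set_option autoImplicit false
set_option maxRecDepth 100000
namespace Oct.CC
open Oct

theorem b73 : c73.all (colC gl) = true := by decide +kernel

theorem q73 : rootsL gl 833 c73 = r73 := by decide +kernel

theorem k73 : chkAll gl (c72.getLastD col0) (c73 ++ [c74.getD 0 col0]) = true := by decide +kernel

end Oct.CC
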