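import Pool.Agent.helper70.CC.V73
import Pool.Agent.helper70.CC.V74
import Pool.Agent.helper70.CC.V75
set_option autoImplicit false
set_option maxRecDepth 100000
namespace Oct.CC
open Oct

theorem b74 : c74.all (colC gl) = true := by decide +kernel

theorem q74 : rootsL gl 844 c74 = r74 := by decide +kernel

theorem k74 : chkAll gl (c73.getLastD col0) (c74 ++ [c75.getD 0 col0]) = true := by decide +kernel

end Oct.CC
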