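import Pool.Agent.helper70.CC.V74
import Pool.Agent.helper70.CC.V75
import Pool.Agent.helper70.CC.V76
set_option autoImplicit false
set_option maxRecDepth 100000
namespace Oct.CC
open Oct

theorem b75 : c75.all (colC gl) = true := by decide +kernel

theorem q75 : rootsL gl 856 c75 = r75 := by decide +kernel

theorem k75 : chkAll gl (c74.getLastD col0) (c75 ++ [c76.getD 0 col0]) = true := by decide +kernel

end Oct.CC
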