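import Pool.Agent.helper70.CC.V76
import Pool.Agent.helper70.CC.V77
set_option autoImplicit false
set_option maxRecDepth 100000
namespace Oct.CC
open Oct

theorem b77 : c77.all (colC gl) = true := by decide +kernel

theorem q77 : rootsL gl 878 c77 = r77 := by decide +kernel

theorem k77 : chkAll gl (c76.getLastD col0) c77 = true := by decide +kernel

end Oct.CC
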