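import Pool.Agent.helper70.CC.V7
import Pool.Agent.helper70.CC.V8
import Pool.Agent.helper70.CC.V9
set_option autoImplicit false
set_option maxRecDepth 100000
namespace Oct.CC
open Oct

theorem b8 : c8.all (colC gl) = true := by decide +kernel

theorem q8 : rootsL gl 88 c8 = r8 := by decide +kernel

theorem k8 : chkAll gl (c7.getLastD col0) (c8 ++ [c9.getD 0 col0]) = true := by decide +kernel

end Oct.CC
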