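import Pool.Agent.helper70.CC.V8
import Pool.Agent.helper70.CC.V9
import Pool.Agent.helper70.CC.V10
set_option autoImplicit false
set_option maxRecDepth 100000
namespace Oct.CC
open Oct

theorem b9 : c9.all (colC gl) = true := by decide +kernel

theorem q9 : rootsL gl 98 c9 = r9 := by decide +kernel

theorem k9 : chkAll gl (c8.getLastD col0) (c9 ++ [c10.getD 0 col0]) = true := by decide +kernel

end Oct.CC
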