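import Pool.Agent.helper70.CC.K0
import Pool.Agent.helper70.CC.K1
import Pool.Agent.helper70.CC.K2
import Pool.Agent.helper70.CC.K3
import Pool.Agent.helper70.CC.K4
import Pool.Agent.helper70.CC.K5
import Pool.Agent.helper70.CC.K6
import Pool.Agent.helper70.CC.K7
import Pool.Agent.helper70.CC.K8
import Pool.Agent.helper70.CC.K9
import Pool.Agent.helper70.CC.K10
import Pool.Agent.helper70.CC.K11
import Pool.Agent.helper70.CC.K12
import Pool.Agent.helper70.CC.K13
import Pool.Agent.helper70.CC.K14
import Pool.Agent.helper70.CC.K15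
import Pool.Agent.helper70.CC.K16
import Pool.Agent.helper70.CC.K17
import Pool.Agent.helper70.CC.K18
import Pool.Agent.helper70.CC.K19
import Pool.Agent.helper70.CC.K20
import Pool.Agent.helper70.CC.K21
import Pool.Agent.helper70.CC.K22
import Pool.Agent.helper70.CC.K23
import Pool.Agent.helper70.CC.K24
import Pool.Agent.helper70.CC.K25
import Pool.Agent.helper70.CC.K26
import Pool.Agent.helper70.CC.K27
import Pool.Agent.helper70.CC.K28
import Pool.Agent.helper70.CC.K29
import Pool.Agent.helper70.CC.K30
import Pool.Agent.helper70.CC.K31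
import Pool.Agent.helper70.CC.K32
import Pool.Agent.helper70.CC.K33
import Pool.Agent.helper70.CC.K34
import Pool.Agent.helper70.CC.K35
import Pool.Agent.helper70.CC.K36
import Pool.Agent.helper70.CC.K37
import Pool.Agent.helper70.CC.K38
import Pool.Agent.helper70.CC.K39
import Pool.Agent.helper70.CC.K40
import Pool.Agent.helper70.CC.K41
import Pool.Agent.helper70.CC.K42
import Pool.Agent.helper70.CC.K43
import Pool.Agent.helper70.CC.K44
import Pool.Agent.helper70.CC.K45
import Pool.Agent.helper70.CC.K46
import Pool.Agent.helper70.CC.K47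
import Pool.Agent.helper70.CC.K48
import Pool.Agent.helper70.CC.K49
import Pool.Agent.helper70.CC.K50
import Pool.Agent.helper70.CC.K51
import Pool.Agent.helper70.CC.K52
import Pool.Agent.helper70.CC.K53
import Pool.Agent.helper70.CC.K54
import Pool.Agent.helper70.CC.K55
import Pool.Agent.helper70.CC.K56
import Pool.Agent.helper70.CC.K57
import Pool.Agent.helper70.CC.K58
import Pool.Agent.helper70.CC.K59
import Pool.Agent.helper70.CC.K60
import Pool.Agent.helper70.CC.K61
import Pool.Agent.helper70.CC.K62
import Pool.Agent.helper70.CC.K63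
import Pool.Agent.helper70.CC.K64
import Pool.Agent.helper70.CC.K65
import Pool.Agent.helper70.CC.K66
import Pool.Agent.helper70.CC.K67
import Pool.Agent.helper70.CC.K68
import Pool.Agent.helper70.CC.K69
import Pool.Agent.helper70.CC.K70
import Pool.Agent.helper70.CC.K71
import Pool.Agent.helper70.CC.K72
import Pool.Agent.helper70.CC.K73
import Pool.Agent.helper70.CC.K74
import Pool.Agent.helper70.CC.K75
import Pool.Agent.helper70.CC.K76
import Pool.Agent.helper70.CC.K77
import Pool.Agent.helper70.CC.A0
import Pool.Agent.helper70.CC.A1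
import Pool.Agent.helper70.CC.A2
import Pool.Agent.helper70.CC.A3
import Pool.Agent.helper70.CC.A4
import Pool.Agent.helper70.CC.A5
import Pool.Agent.helper70.CC.A6
import Pool.Agent.helper70.CC.A7
import Pool.Agent.helper70.CC.A8
import Pool.Agent.helper70.CC.A9
import Pool.Agent.helper70.CC.A10
import Pool.Agent.helper70.CC.A11
import Pool.Agent.helper70.CC.A12
import Pool.Agent.helper70.CC.A13
import Pool.Agent.helper70.CC.A14
import Pool.Agent.helper70.CC.A15
import Pool.Agent.helper70.CC.A16
import Pool.Agent.helper70.CC.A17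
import Pool.Agent.helper70.CC.A18
import Pool.Agent.helper70.CC.A19
import Pool.Agent.helper70.CC.A20
import Pool.Agent.helper70.CC.A21
import Pool.Agent.helper70.CC.A22
import Pool.Agent.helper70.CC.A23
import Pool.Agent.helper70.CC.A24
import Pool.Agent.helper70.CC.A25
import Pool.Agent.helper70.CC.A26
import Pool.Agent.helper70.CC.A27
import Pool.Agent.helper70.CC.A28
import Pool.Agent.helper70.CC.A29
import Pool.Agent.helper70.CC.A30
import Pool.Agent.helper70.CC.A31
import Pool.Agent.helper70.CC.A32
import Pool.Agent.helper70.CC.A33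
import Pool.Agent.helper70.CC.A34
import Pool.Agent.helper70.CC.A35
import Pool.Agent.helper70.CC.A36
import Pool.Agent.helper70.CC.A37
import Pool.Agent.helper70.CC.A38
import Pool.Agent.helper70.CC.A39
import Pool.Agent.helper70.CC.A40
import Pool.Agent.helper70.CC.A41
import Pool.Agent.helper70.CC.A42
import Pool.Agent.helper70.CC.A43
import Pool.Agent.helper70.CC.A44
import Pool.Agent.helper70.CC.A45
import Pool.Agent.helper70.CC.A46
import Pool.Agent.helper70.CC.A47
import Pool.Agent.helper70.CC.A48
import Pool.Agent.helper70.CC.A49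
import Pool.Agent.helper70.CC.A50
import Pool.Agent.helper70.CC.A51
import Pool.Agent.helper70.CC.A52
import Pool.Agent.helper70.CC.A53
import Pool.Agent.helper70.CC.A54
import Pool.Agent.helper70.CC.A55
import Pool.Agent.helper70.CC.A56
import Pool.Agent.helper70.CC.A57
import Pool.Agent.helper70.CC.A58
import Pool.Agent.helper70.CC.A59
import Pool.Agent.helper70.CC.A60
import Pool.Agent.helper70.CC.A61
import Pool.Agent.helper70.CC.A62
import Pool.Agent.helper70.CC.A63
import Pool.Agent.helper70.CC.A64
import Pool.Agent.helper70.CC.A65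
import Pool.Agent.helper70.CC.A66
import Pool.Agent.helper70.CC.A67
import Pool.Agent.helper70.CC.A68
import Pool.Agent.helper70.CC.A69
import Pool.Agent.helper70.CC.A70
import Pool.Agent.helper70.CC.A71
import Pool.Agent.helper70.CC.A72
import Pool.Agent.helper70.CC.A73
import Pool.Agent.helper70.CC.A74
import Pool.Agent.helper70.CC.A75
import Pool.Agent.helper70.CC.A76
import Pool.Agent.helper70.CC.A77
import Pool.Agent.helper70.M9.Fin
set_option autoImplicit false
set_option maxRecDepth 100000
namespace Oct.CC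
open Oct MvPolynomial

def s77 : List Column := c77

def s76 : List Column := c76 ++ s77

def s75 : List Column := c75 ++ s76

def s74 : List Column := c74 ++ s75

def s73 : List Column := c73 ++ s74

def s72 : List Column := c72 ++ s73

def s71 : List Column := c71 ++ s72

def s70 : List Column := c70 ++ s71

def s69 : List Column := c69 ++ s70

def s68 : List Column := c68 ++ s69

def s67 : List Column := c67 ++ s68

def s66 : List Column := c66 ++ s67

def s65 : List Column := c65 ++ s66

def s64 : List Column := c64 ++ s65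

def s63 : List Column := c63 ++ s64

def s62 : List Column := c62 ++ s63

def s61 : List Column := c61 ++ s62

def s60 : List Column := c60 ++ s61

def s59 : List Column := c59 ++ s60

def s58 : List Column := c58 ++ s59

def s57 : List Column := c57 ++ s58

def s56 : List Column := c56 ++ s57

def s55 : List Column := c55 ++ s56

def s54 : List Column := c54 ++ s55

def s53 : List Column := c53 ++ s54

def s52 : List Column := c52 ++ s53

def s51 : List Column := c51 ++ s52

def s50 : List Column := c50 ++ s51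

def s49 : List Column := c49 ++ s50

def s48 : List Column := c48 ++ s49

def s47 : List Column := c47 ++ s48

def s46 : List Column := c46 ++ s47

def s45 : List Column := c45 ++ s46

def s44 : List Column := c44 ++ s45

def s43 : List Column := c43 ++ s44

def s42 : List Column := c42 ++ s43

def s41 : List Column := c41 ++ s42

def s40 : List Column := c40 ++ s41

def s39 : List Column := c39 ++ s40

def s38 : List Column := c38 ++ s39

def s37 : List Column := c37 ++ s38

def s36 : List Column := c36 ++ s37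

def s35 : List Column := c35 ++ s36

def s34 : List Column := c34 ++ s35

def s33 : List Column := c33 ++ s34

def s32 : List Column := c32 ++ s33

def s31 : List Column := c31 ++ s32

def s30 : List Column := c30 ++ s31

def s29 : List Column := c29 ++ s30

def s28 : List Column := c28 ++ s29

def s27 : List Column := c27 ++ s28

def s26 : List Column := c26 ++ s27

def s25 : List Column := c25 ++ s26

def s24 : List Column := c24 ++ s25

def s23 : List Column := c23 ++ s24

def s22 : List Column := c22 ++ s23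

def s21 : List Column := c21 ++ s22

def s20 : List Column := c20 ++ s21

def s19 : List Column := c19 ++ s20

def s18 : List Column := c18 ++ s19

def s17 : List Column := c17 ++ s18

def s16 : List Column := c16 ++ s17

def s15 : List Column := c15 ++ s16

def s14 : List Column := c14 ++ s15

def s13 : List Column := c13 ++ s14

def s12 : List Column := c12 ++ s13

def s11 : List Column := c11 ++ s12

def s10 : List Column := c10 ++ s11

def s9 : List Column := c9 ++ s10

def s8 : List Column := c8 ++ s9

def s7 : List Column := c7 ++ s8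

def s6 : List Column := c6 ++ s7

def s5 : List Column := c5 ++ s6

def s4 : List Column := c4 ++ s5

def s3 : List Column := c3 ++ s4

def s2 : List Column := c2 ++ s3

def s1 : List Column := c1 ++ s2

def s0 : List Column := c0 ++ s1

theorem colsC : ∀ c ∈ s0, colC gl c = true := by
  have h77 : ∀ c ∈ s77, colC gl c = true := List.all_eq_true.1 b77
  have h76 : ∀ c ∈ s76, colC gl c = true := forall_cat (List.all_eq_true.1 b76) h77
  have h75 : ∀ c ∈ s75, colC gl c = true := forall_cat (List.all_eq_true.1 b75) h76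
  have h74 : ∀ c ∈ s74, colC gl c = true := forall_cat (List.all_eq_true.1 b74) h75
  have h73 : ∀ c ∈ s73, colC gl c = true := forall_cat (List.all_eq_true.1 b73) h74
  have h72 : ∀ c ∈ s72, colC gl c = true := forall_cat (List.all_eq_true.1 b72) h73
  have h71 : ∀ c ∈ s71, colC gl c = true := forall_cat (List.all_eq_true.1 b71) h72
  have h70 : ∀ c ∈ s70, colC gl c = true := forall_cat (List.all_eq_true.1 b70) h71
  have h69 : ∀ c ∈ s69, colC gl c = true := forall_cat (List.all_eq_true.1 b69) h70
  have h68 : ∀ c ∈ s68, colC gl c = true := forall_cat (List.all_eq_true.1 b68) h69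
  have h67 : ∀ c ∈ s67, colC gl c = true := forall_cat (List.all_eq_true.1 b67) h68
  have h66 : ∀ c ∈ s66, colC gl c = true := forall_cat (List.all_eq_true.1 b66) h67
  have h65 : ∀ c ∈ s65, colC gl c = true := forall_cat (List.all_eq_true.1 b65) h66
  have h64 : ∀ c ∈ s64, colC gl c = true := forall_cat (List.all_eq_true.1 b64) h65
  have h63 : ∀ c ∈ s63, colC gl c = true := forall_cat (List.all_eq_true.1 b63) h64
  have h62 : ∀ c ∈ s62, colC gl c = true := forall_cat (List.all_eq_true.1 b62) h63
  have h61 : ∀ c ∈ s61, colC gl c = true := forall_cat (List.all_eq_true.1 b61) h62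
  have h60 : ∀ c ∈ s60, colC gl c = true := forall_cat (List.all_eq_true.1 b60) h61
  have h59 : ∀ c ∈ s59, colC gl c = true := forall_cat (List.all_eq_true.1 b59) h60
  have h58 : ∀ c ∈ s58, colC gl c = true := forall_cat (List.all_eq_true.1 b58) h59
  have h57 : ∀ c ∈ s57, colC gl c = true := forall_cat (List.all_eq_true.1 b57) h58
  have h56 : ∀ c ∈ s56, colC gl c = true := forall_cat (List.all_eq_true.1 b56) h57
  have h55 : ∀ c ∈ s55, colC gl c = true := forall_cat (List.all_eq_true.1 b55) h56
  have h54 : ∀ c ∈ s54, colC gl c = true := forall_cat (List.all_eq_true.1 b54) h55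
  have h53 : ∀ c ∈ s53, colC gl c = true := forall_cat (List.all_eq_true.1 b53) h54
  have h52 : ∀ c ∈ s52, colC gl c = true := forall_cat (List.all_eq_true.1 b52) h53
  have h51 : ∀ c ∈ s51, colC gl c = true := forall_cat (List.all_eq_true.1 b51) h52
  have h50 : ∀ c ∈ s50, colC gl c = true := forall_cat (List.all_eq_true.1 b50) h51
  have h49 : ∀ c ∈ s49, colC gl c = true := forall_cat (List.all_eq_true.1 b49) h50
  have h48 : ∀ c ∈ s48, colC gl c = true := forall_cat (List.all_eq_true.1 b48) h49
  have h47 : ∀ c ∈ s47, colC gl c = true := forall_cat (List.all_eq_true.1 b47) h48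
  have h46 : ∀ c ∈ s46, colC gl c = true := forall_cat (List.all_eq_true.1 b46) h47
  have h45 : ∀ c ∈ s45, colC gl c = true := forall_cat (List.all_eq_true.1 b45) h46
  have h44 : ∀ c ∈ s44, colC gl c = true := forall_cat (List.all_eq_true.1 b44) h45
  have h43 : ∀ c ∈ s43, colC gl c = true := forall_cat (List.all_eq_true.1 b43) h44
  have h42 : ∀ c ∈ s42, colC gl c = true := forall_cat (List.all_eq_true.1 b42) h43
  have h41 : ∀ c ∈ s41, colC gl c = true := forall_cat (List.all_eq_true.1 b41) h42
  have h40 : ∀ c ∈ s40, colC gl c = true := forall_cat (List.all_eq_true.1 b40) h41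
  have h39 : ∀ c ∈ s39, colC gl c = true := forall_cat (List.all_eq_true.1 b39) h40
  have h38 : ∀ c ∈ s38, colC gl c = true := forall_cat (List.all_eq_true.1 b38) h39
  have h37 : ∀ c ∈ s37, colC gl c = true := forall_cat (List.all_eq_true.1 b37) h38
  have h36 : ∀ c ∈ s36, colC gl c = true := forall_cat (List.all_eq_true.1 b36) h37
  have h35 : ∀ c ∈ s35, colC gl c = true := forall_cat (List.all_eq_true.1 b35) h36
  have h34 : ∀ c ∈ s34, colC gl c = true := forall_cat (List.all_eq_true.1 b34) h35
  have h33 : ∀ c ∈ s33, colC gl c = true := forall_cat (List.all_eq_true.1 b33) h34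
  have h32 : ∀ c ∈ s32, colC gl c = true := forall_cat (List.all_eq_true.1 b32) h33
  have h31 : ∀ c ∈ s31, colC gl c = true := forall_cat (List.all_eq_true.1 b31) h32
  have h30 : ∀ c ∈ s30, colC gl c = true := forall_cat (List.all_eq_true.1 b30) h31
  have h29 : ∀ c ∈ s29, colC gl c = true := forall_cat (List.all_eq_true.1 b29) h30
  have h28 : ∀ c ∈ s28, colC gl c = true := forall_cat (List.all_eq_true.1 b28) h29
  have h27 : ∀ c ∈ s27, colC gl c = true := forall_cat (List.all_eq_true.1 b27) h28
  have h26 : ∀ c ∈ s26, colC gl c = true := forall_cat (List.all_eq_true.1 b26) h27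
  have h25 : ∀ c ∈ s25, colC gl c = true := forall_cat (List.all_eq_true.1 b25) h26
  have h24 : ∀ c ∈ s24, colC gl c = true := forall_cat (List.all_eq_true.1 b24) h25
  have h23 : ∀ c ∈ s23, colC gl c = true := forall_cat (List.all_eq_true.1 b23) h24
  have h22 : ∀ c ∈ s22, colC gl c = true := forall_cat (List.all_eq_true.1 b22) h23
  have h21 : ∀ c ∈ s21, colC gl c = true := forall_cat (List.all_eq_true.1 b21) h22
  have h20 : ∀ c ∈ s20, colC gl c = true := forall_cat (List.all_eq_true.1 b20) h21
  have h19 : ∀ c ∈ s19, colC gl c = true := forall_cat (List.all_eq_true.1 b19) h20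
  have h18 : ∀ c ∈ s18, colC gl c = true := forall_cat (List.all_eq_true.1 b18) h19
  have h17 : ∀ c ∈ s17, colC gl c = true := forall_cat (List.all_eq_true.1 b17) h18
  have h16 : ∀ c ∈ s16, colC gl c = true := forall_cat (List.all_eq_true.1 b16) h17
  have h15 : ∀ c ∈ s15, colC gl c = true := forall_cat (List.all_eq_true.1 b15) h16
  have h14 : ∀ c ∈ s14, colC gl c = true := forall_cat (List.all_eq_true.1 b14) h15
  have h13 : ∀ c ∈ s13, colC gl c = true := forall_cat (List.all_eq_true.1 b13) h14
  have h12 : ∀ c ∈ s12, colC gl c = true := forall_cat (List.all_eq_true.1 b12) h13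
  have h11 : ∀ c ∈ s11, colC gl c = true := forall_cat (List.all_eq_true.1 b11) h12
  have h10 : ∀ c ∈ s10, colC gl c = true := forall_cat (List.all_eq_true.1 b10) h11
  have h9 : ∀ c ∈ s9, colC gl c = true := forall_cat (List.all_eq_true.1 b9) h10
  have h8 : ∀ c ∈ s8, colC gl c = true := forall_cat (List.all_eq_true.1 b8) h9
  have h7 : ∀ c ∈ s7, colC gl c = true := forall_cat (List.all_eq_true.1 b7) h8
  have h6 : ∀ c ∈ s6, colC gl c = true := forall_cat (List.all_eq_true.1 b6) h7
  have h5 : ∀ c ∈ s5, colC gl c = true := forall_cat (List.all_eq_true.1 b5) h6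
  have h4 : ∀ c ∈ s4, colC gl c = true := forall_cat (List.all_eq_true.1 b4) h5
  have h3 : ∀ c ∈ s3, colC gl c = true := forall_cat (List.all_eq_true.1 b3) h4
  have h2 : ∀ c ∈ s2, colC gl c = true := forall_cat (List.all_eq_true.1 b2) h3
  have h1 : ∀ c ∈ s1, colC gl c = true := forall_cat (List.all_eq_true.1 b1) h2
  have h0 : ∀ c ∈ s0, colC gl c = true := forall_cat (List.all_eq_true.1 b0) h1
  exact h0

theorem htab : tabOK 8 tab := by unfold tabOK; decide

theorem hpol : 0 < sg false * (((tab.getD 0 []).getD 0 0 : ℤ) : ℝ) := by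
  have h : ((tab.getD 0 []).getD 0 0 : ℤ) = -30701478122050627 := by decide
  rw [h]
  norm_num [sg]

theorem hd : Even 8 := by decide

theorem o0 : (970558080017423032608012543132706704250937199211460609319729968971776 : ℕ) = tn ch0.o := by decide +kernel

theorem o1 : (2413878040345407225193313621469105750016 : ℕ) = tn ch1.o := by decide +kernel

theorem o2 : (617221900829349284139339043588041582798594923280778683942750556154377533828291021973569404928 : ℕ) = tn ch2.o := by decide +kernel

theorem ea0 : ∀ c ∈ c0, ColOK (polyOf 8 tab) gl.sp c :=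
  (ana_pieceG htab hd hG0 hH0 o0 ctx0 hpol a0_0)

theorem ea1 : ∀ c ∈ c1, ColOK (polyOf 8 tab) gl.sp c :=
  (ana_pieceG htab hd hG0 hH0 o0 ctx0 hpol a1_0)

theorem ea2 : ∀ c ∈ c2, ColOK (polyOf 8 tab) gl.sp c :=
  (ana_pieceG htab hd hG0 hH0 o0 ctx0 hpol a2_0)

theorem ea3 : ∀ c ∈ c3, ColOK (polyOf 8 tab) gl.sp c :=
  (ana_pieceG htab hd hG0 hH0 o0 ctx0 hpol a3_0)

theorem ea4 : ∀ c ∈ c4, ColOK (polyOf 8 tab) gl.sp c :=
  (ana_pieceG htab hd hG0 hH0 o0 ctx0 hpol a4_0)

theorem ea5 : ∀ c ∈ c5, ColOK (polyOf 8 tab) gl.sp c :=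
  (ana_pieceG htab hd hG0 hH0 o0 ctx0 hpol a5_0)

theorem ea6 : ∀ c ∈ c6, ColOK (polyOf 8 tab) gl.sp c :=
  (ana_pieceG htab hd hG0 hH0 o0 ctx0 hpol a6_0)

theorem ea7 : ∀ c ∈ c7, ColOK (polyOf 8 tab) gl.sp c :=
  (ana_pieceG htab hd hG0 hH0 o0 ctx0 hpol a7_0)

theorem ea8 : ∀ c ∈ c8, ColOK (polyOf 8 tab) gl.sp c :=
  (ana_pieceG htab hd hG0 hH0 o0 ctx0 hpol a8_0)

theorem ea9 : ∀ c ∈ c9, ColOK (polyOf 8 tab) gl.sp c :=
  (ana_pieceG htab hd hG0 hH0 o0 ctx0 hpol a9_0)

theorem ea10 : ∀ c ∈ c10, ColOK (polyOf 8 tab) gl.sp c :=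
  (ana_pieceG htab hd hG0 hH0 o0 ctx0 hpol a10_0)

theorem ea11 : ∀ c ∈ c11, ColOK (polyOf 8 tab) gl.sp c :=
  (ana_pieceG htab hd hG0 hH0 o0 ctx0 hpol a11_0)

theorem ea12 : ∀ c ∈ c12, ColOK (polyOf 8 tab) gl.sp c :=
  (ana_pieceG htab hd hG0 hH0 o0 ctx0 hpol a12_0)

theorem ea13 : ∀ c ∈ c13, ColOK (polyOf 8 tab) gl.sp c :=
  (ana_pieceG htab hd hG0 hH0 o0 ctx0 hpol a13_0)

theorem ea14 : ∀ c ∈ c14, ColOK (polyOf 8 tab) gl.sp c :=
  (ana_pieceG htab hd hG0 hH0 o0 ctx0 hpol a14_0)

theorem ea15 : ∀ c ∈ c15, ColOK (polyOf 8 tab) gl.sp c :=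
  (ana_pieceG htab hd hG0 hH0 o0 ctx0 hpol a15_0)

theorem ea16 : ∀ c ∈ c16, ColOK (polyOf 8 tab) gl.sp c :=
  (ana_pieceG htab hd hG0 hH0 o0 ctx0 hpol a16_0)

theorem ea17 : ∀ c ∈ c17, ColOK (polyOf 8 tab) gl.sp c :=
  (ana_pieceG htab hd hG0 hH0 o0 ctx0 hpol a17_0)

theorem ea18 : ∀ c ∈ c18, ColOK (polyOf 8 tab) gl.sp c :=
  (ana_pieceG htab hd hG0 hH0 o0 ctx0 hpol a18_0)

theorem ea19 : ∀ c ∈ c19, ColOK (polyOf 8 tab) gl.sp c :=
  (ana_pieceG htab hd hG0 hH0 o0 ctx0 hpol a19_0)

theorem ea20 : ∀ c ∈ c20, ColOK (polyOf 8 tab) gl.sp c :=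
  (ana_pieceG htab hd hG0 hH0 o0 ctx0 hpol a20_0)

theorem ea21 : ∀ c ∈ c21, ColOK (polyOf 8 tab) gl.sp c :=
  (forall_cat (ana_pieceG htab hd hG0 hH0 o0 ctx0 hpol a21_0)
   (ana_pieceG htab hd hG1 hH1 o1 ctx1 hpol a21_1))

theorem ea22 : ∀ c ∈ c22, ColOK (polyOf 8 tab) gl.sp c :=
  (forall_cat (ana_pieceG htab hd hG1 hH1 o1 ctx1 hpol a22_0)
   (ana_pieceG htab hd hG2 hH2 o2 ctx2 hpol a22_1))

theorem ea23 : ∀ c ∈ c23, ColOK (polyOf 8 tab) gl.sp c :=
  (ana_pieceG htab hd hG2 hH2 o2 ctx2 hpol a23_0)

theorem ea24 : ∀ c ∈ c24, ColOK (polyOf 8 tab) gl.sp c :=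
  (ana_pieceG htab hd hG2 hH2 o2 ctx2 hpol a24_0)

theorem ea25 : ∀ c ∈ c25, ColOK (polyOf 8 tab) gl.sp c :=
  (ana_pieceG htab hd hG2 hH2 o2 ctx2 hpol a25_0)

theorem ea26 : ∀ c ∈ c26, ColOK (polyOf 8 tab) gl.sp c :=
  (ana_pieceG htab hd hG2 hH2 o2 ctx2 hpol a26_0)

theorem ea27 : ∀ c ∈ c27, ColOK (polyOf 8 tab) gl.sp c :=
  (ana_pieceG htab hd hG2 hH2 o2 ctx2 hpol a27_0)

theorem ea28 : ∀ c ∈ c28, ColOK (polyOf 8 tab) gl.sp c :=
  (ana_pieceG htab hd hG2 hH2 o2 ctx2 hpol a28_0)

theorem ea29 : ∀ c ∈ c29, ColOK (polyOf 8 tab) gl.sp c :=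
  (ana_pieceG htab hd hG2 hH2 o2 ctx2 hpol a29_0)

theorem ea30 : ∀ c ∈ c30, ColOK (polyOf 8 tab) gl.sp c :=
  (ana_pieceG htab hd hG2 hH2 o2 ctx2 hpol a30_0)

theorem ea31 : ∀ c ∈ c31, ColOK (polyOf 8 tab) gl.sp c :=
  (ana_pieceG htab hd hG2 hH2 o2 ctx2 hpol a31_0)

theorem ea32 : ∀ c ∈ c32, ColOK (polyOf 8 tab) gl.sp c :=
  (ana_pieceG htab hd hG2 hH2 o2 ctx2 hpol a32_0)

theorem ea33 : ∀ c ∈ c33, ColOK (polyOf 8 tab) gl.sp c :=
  (ana_pieceG htab hd hG2 hH2 o2 ctx2 hpol a33_0)

theorem ea34 : ∀ c ∈ c34, ColOK (polyOf 8 tab) gl.sp c :=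
  (ana_pieceG htab hd hG2 hH2 o2 ctx2 hpol a34_0)

theorem ea35 : ∀ c ∈ c35, ColOK (polyOf 8 tab) gl.sp c :=
  (ana_pieceG htab hd hG2 hH2 o2 ctx2 hpol a35_0)

theorem ea36 : ∀ c ∈ c36, ColOK (polyOf 8 tab) gl.sp c :=
  (ana_pieceG htab hd hG2 hH2 o2 ctx2 hpol a36_0)

theorem ea37 : ∀ c ∈ c37, ColOK (polyOf 8 tab) gl.sp c :=
  (ana_pieceG htab hd hG2 hH2 o2 ctx2 hpol a37_0)

theorem ea38 : ∀ c ∈ c38, ColOK (polyOf 8 tab) gl.sp c :=
  (ana_pieceG htab hd hG2 hH2 o2 ctx2 hpol a38_0)

theorem ea39 : ∀ c ∈ c39, ColOK (polyOf 8 tab) gl.sp c :=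
  (ana_pieceG htab hd hG2 hH2 o2 ctx2 hpol a39_0)

theorem ea40 : ∀ c ∈ c40, ColOK (polyOf 8 tab) gl.sp c :=
  (ana_pieceG htab hd hG2 hH2 o2 ctx2 hpol a40_0)

theorem ea41 : ∀ c ∈ c41, ColOK (polyOf 8 tab) gl.sp c :=
  (ana_pieceG htab hd hG2 hH2 o2 ctx2 hpol a41_0)

theorem ea42 : ∀ c ∈ c42, ColOK (polyOf 8 tab) gl.sp c :=
  (ana_pieceG htab hd hG2 hH2 o2 ctx2 hpol a42_0)

theorem ea43 : ∀ c ∈ c43, ColOK (polyOf 8 tab) gl.sp c :=
  (ana_pieceG htab hd hG2 hH2 o2 ctx2 hpol a43_0)

theorem ea44 : ∀ c ∈ c44, ColOK (polyOf 8 tab) gl.sp c :=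
  (ana_pieceG htab hd hG2 hH2 o2 ctx2 hpol a44_0)

theorem ea45 : ∀ c ∈ c45, ColOK (polyOf 8 tab) gl.sp c :=
  (ana_pieceG htab hd hG2 hH2 o2 ctx2 hpol a45_0)

theorem ea46 : ∀ c ∈ c46, ColOK (polyOf 8 tab) gl.sp c :=
  (ana_pieceG htab hd hG2 hH2 o2 ctx2 hpol a46_0)

theorem ea47 : ∀ c ∈ c47, ColOK (polyOf 8 tab) gl.sp c :=
  (ana_pieceG htab hd hG2 hH2 o2 ctx2 hpol a47_0)

theorem ea48 : ∀ c ∈ c48, ColOK (polyOf 8 tab) gl.sp c :=
  (ana_pieceG htab hd hG2 hH2 o2 ctx2 hpol a48_0)

theorem ea49 : ∀ c ∈ c49, ColOK (polyOf 8 tab) gl.sp c :=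
  (ana_pieceG htab hd hG2 hH2 o2 ctx2 hpol a49_0)

theorem ea50 : ∀ c ∈ c50, ColOK (polyOf 8 tab) gl.sp c :=
  (ana_pieceG htab hd hG2 hH2 o2 ctx2 hpol a50_0)

theorem ea51 : ∀ c ∈ c51, ColOK (polyOf 8 tab) gl.sp c :=
  (ana_pieceG htab hd hG2 hH2 o2 ctx2 hpol a51_0)

theorem ea52 : ∀ c ∈ c52, ColOK (polyOf 8 tab) gl.sp c :=
  (ana_pieceG htab hd hG2 hH2 o2 ctx2 hpol a52_0)

theorem ea53 : ∀ c ∈ c53, ColOK (polyOf 8 tab) gl.sp c :=
  (ana_pieceG htab hd hG2 hH2 o2 ctx2 hpol a53_0)

theorem ea54 : ∀ c ∈ c54, ColOK (polyOf 8 tab) gl.sp c :=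
  (ana_pieceG htab hd hG2 hH2 o2 ctx2 hpol a54_0)

theorem ea55 : ∀ c ∈ c55, ColOK (polyOf 8 tab) gl.sp c :=
  (ana_pieceG htab hd hG2 hH2 o2 ctx2 hpol a55_0)

theorem ea56 : ∀ c ∈ c56, ColOK (polyOf 8 tab) gl.sp c :=
  (ana_pieceG htab hd hG2 hH2 o2 ctx2 hpol a56_0)

theorem ea57 : ∀ c ∈ c57, ColOK (polyOf 8 tab) gl.sp c :=
  (ana_pieceG htab hd hG2 hH2 o2 ctx2 hpol a57_0)

theorem ea58 : ∀ c ∈ c58, ColOK (polyOf 8 tab) gl.sp c :=
  (ana_pieceG htab hd hG2 hH2 o2 ctx2 hpol a58_0)

theorem ea59 : ∀ c ∈ c59, ColOK (polyOf 8 tab) gl.sp c :=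
  (ana_pieceG htab hd hG2 hH2 o2 ctx2 hpol a59_0)

theorem ea60 : ∀ c ∈ c60, ColOK (polyOf 8 tab) gl.sp c :=
  (ana_pieceG htab hd hG2 hH2 o2 ctx2 hpol a60_0)

theorem ea61 : ∀ c ∈ c61, ColOK (polyOf 8 tab) gl.sp c :=
  (ana_pieceG htab hd hG2 hH2 o2 ctx2 hpol a61_0)

theorem ea62 : ∀ c ∈ c62, ColOK (polyOf 8 tab) gl.sp c :=
  (ana_pieceG htab hd hG2 hH2 o2 ctx2 hpol a62_0)

theorem ea63 : ∀ c ∈ c63, ColOK (polyOf 8 tab) gl.sp c :=
  (ana_pieceG htab hd hG2 hH2 o2 ctx2 hpol a63_0)

theorem ea64 : ∀ c ∈ c64, ColOK (polyOf 8 tab) gl.sp c :=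
  (ana_pieceG htab hd hG2 hH2 o2 ctx2 hpol a64_0)

theorem ea65 : ∀ c ∈ c65, ColOK (polyOf 8 tab) gl.sp c :=
  (ana_pieceG htab hd hG2 hH2 o2 ctx2 hpol a65_0)

theorem ea66 : ∀ c ∈ c66, ColOK (polyOf 8 tab) gl.sp c :=
  (ana_pieceG htab hd hG2 hH2 o2 ctx2 hpol a66_0)

theorem ea67 : ∀ c ∈ c67, ColOK (polyOf 8 tab) gl.sp c :=
  (ana_pieceG htab hd hG2 hH2 o2 ctx2 hpol a67_0)

theorem ea68 : ∀ c ∈ c68, ColOK (polyOf 8 tab) gl.sp c :=
  (ana_pieceG htab hd hG2 hH2 o2 ctx2 hpol a68_0)

theorem ea69 : ∀ c ∈ c69, ColOK (polyOf 8 tab) gl.sp c :=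
  (ana_pieceG htab hd hG2 hH2 o2 ctx2 hpol a69_0)

theorem ea70 : ∀ c ∈ c70, ColOK (polyOf 8 tab) gl.sp c :=
  (ana_pieceG htab hd hG2 hH2 o2 ctx2 hpol a70_0)

theorem ea71 : ∀ c ∈ c71, ColOK (polyOf 8 tab) gl.sp c :=
  (ana_pieceG htab hd hG2 hH2 o2 ctx2 hpol a71_0)

theorem ea72 : ∀ c ∈ c72, ColOK (polyOf 8 tab) gl.sp c :=
  (ana_pieceG htab hd hG2 hH2 o2 ctx2 hpol a72_0)

theorem ea73 : ∀ c ∈ c73, ColOK (polyOf 8 tab) gl.sp c :=
  (ana_pieceG htab hd hG2 hH2 o2 ctx2 hpol a73_0)

theorem ea74 : ∀ c ∈ c74, ColOK (polyOf 8 tab) gl.sp c :=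
  (ana_pieceG htab hd hG2 hH2 o2 ctx2 hpol a74_0)

theorem ea75 : ∀ c ∈ c75, ColOK (polyOf 8 tab) gl.sp c :=
  (ana_pieceG htab hd hG2 hH2 o2 ctx2 hpol a75_0)

theorem ea76 : ∀ c ∈ c76, ColOK (polyOf 8 tab) gl.sp c :=
  (ana_pieceG htab hd hG2 hH2 o2 ctx2 hpol a76_0)

theorem ea77 : ∀ c ∈ c77, ColOK (polyOf 8 tab) gl.sp c :=
  (ana_pieceG htab hd hG2 hH2 o2 ctx2 hpol a77_0)

theorem ana : ∀ c ∈ s0, ColOK (polyOf 8 tab) gl.sp c := by
  have h77 : ∀ c ∈ s77, ColOK (polyOf 8 tab) gl.sp c := ea77
  have h76 : ∀ c ∈ s76, ColOK (polyOf 8 tab) gl.sp c := forall_cat ea76 h77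
  have h75 : ∀ c ∈ s75, ColOK (polyOf 8 tab) gl.sp c := forall_cat ea75 h76
  have h74 : ∀ c ∈ s74, ColOK (polyOf 8 tab) gl.sp c := forall_cat ea74 h75
  have h73 : ∀ c ∈ s73, ColOK (polyOf 8 tab) gl.sp c := forall_cat ea73 h74
  have h72 : ∀ c ∈ s72, ColOK (polyOf 8 tab) gl.sp c := forall_cat ea72 h73
  have h71 : ∀ c ∈ s71, ColOK (polyOf 8 tab) gl.sp c := forall_cat ea71 h72
  have h70 : ∀ c ∈ s70, ColOK (polyOf 8 tab) gl.sp c := forall_cat ea70 h71
  have h69 : ∀ c ∈ s69, ColOK (polyOf 8 tab) gl.sp c := forall_cat ea69 h70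
  have h68 : ∀ c ∈ s68, ColOK (polyOf 8 tab) gl.sp c := forall_cat ea68 h69
  have h67 : ∀ c ∈ s67, ColOK (polyOf 8 tab) gl.sp c := forall_cat ea67 h68
  have h66 : ∀ c ∈ s66, ColOK (polyOf 8 tab) gl.sp c := forall_cat ea66 h67
  have h65 : ∀ c ∈ s65, ColOK (polyOf 8 tab) gl.sp c := forall_cat ea65 h66
  have h64 : ∀ c ∈ s64, ColOK (polyOf 8 tab) gl.sp c := forall_cat ea64 h65
  have h63 : ∀ c ∈ s63, ColOK (polyOf 8 tab) gl.sp c := forall_cat ea63 h64
  have h62 : ∀ c ∈ s62, ColOK (polyOf 8 tab) gl.sp c := forall_cat ea62 h63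
  have h61 : ∀ c ∈ s61, ColOK (polyOf 8 tab) gl.sp c := forall_cat ea61 h62
  have h60 : ∀ c ∈ s60, ColOK (polyOf 8 tab) gl.sp c := forall_cat ea60 h61
  have h59 : ∀ c ∈ s59, ColOK (polyOf 8 tab) gl.sp c := forall_cat ea59 h60
  have h58 : ∀ c ∈ s58, ColOK (polyOf 8 tab) gl.sp c := forall_cat ea58 h59
  have h57 : ∀ c ∈ s57, ColOK (polyOf 8 tab) gl.sp c := forall_cat ea57 h58
  have h56 : ∀ c ∈ s56, ColOK (polyOf 8 tab) gl.sp c := forall_cat ea56 h57
  have h55 : ∀ c ∈ s55, ColOK (polyOf 8 tab) gl.sp c := forall_cat ea55 h56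
  have h54 : ∀ c ∈ s54, ColOK (polyOf 8 tab) gl.sp c := forall_cat ea54 h55
  have h53 : ∀ c ∈ s53, ColOK (polyOf 8 tab) gl.sp c := forall_cat ea53 h54
  have h52 : ∀ c ∈ s52, ColOK (polyOf 8 tab) gl.sp c := forall_cat ea52 h53
  have h51 : ∀ c ∈ s51, ColOK (polyOf 8 tab) gl.sp c := forall_cat ea51 h52
  have h50 : ∀ c ∈ s50, ColOK (polyOf 8 tab) gl.sp c := forall_cat ea50 h51
  have h49 : ∀ c ∈ s49, ColOK (polyOf 8 tab) gl.sp c := forall_cat ea49 h50
  have h48 : ∀ c ∈ s48, ColOK (polyOf 8 tab) gl.sp c := forall_cat ea48 h49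
  have h47 : ∀ c ∈ s47, ColOK (polyOf 8 tab) gl.sp c := forall_cat ea47 h48
  have h46 : ∀ c ∈ s46, ColOK (polyOf 8 tab) gl.sp c := forall_cat ea46 h47
  have h45 : ∀ c ∈ s45, ColOK (polyOf 8 tab) gl.sp c := forall_cat ea45 h46
  have h44 : ∀ c ∈ s44, ColOK (polyOf 8 tab) gl.sp c := forall_cat ea44 h45
  have h43 : ∀ c ∈ s43, ColOK (polyOf 8 tab) gl.sp c := forall_cat ea43 h44
  have h42 : ∀ c ∈ s42, ColOK (polyOf 8 tab) gl.sp c := forall_cat ea42 h43
  have h41 : ∀ c ∈ s41, ColOK (polyOf 8 tab) gl.sp c := forall_cat ea41 h42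
  have h40 : ∀ c ∈ s40, ColOK (polyOf 8 tab) gl.sp c := forall_cat ea40 h41
  have h39 : ∀ c ∈ s39, ColOK (polyOf 8 tab) gl.sp c := forall_cat ea39 h40
  have h38 : ∀ c ∈ s38, ColOK (polyOf 8 tab) gl.sp c := forall_cat ea38 h39
  have h37 : ∀ c ∈ s37, ColOK (polyOf 8 tab) gl.sp c := forall_cat ea37 h38
  have h36 : ∀ c ∈ s36, ColOK (polyOf 8 tab) gl.sp c := forall_cat ea36 h37
  have h35 : ∀ c ∈ s35, ColOK (polyOf 8 tab) gl.sp c := forall_cat ea35 h36
  have h34 : ∀ c ∈ s34, ColOK (polyOf 8 tab) gl.sp c := forall_cat ea34 h35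
  have h33 : ∀ c ∈ s33, ColOK (polyOf 8 tab) gl.sp c := forall_cat ea33 h34
  have h32 : ∀ c ∈ s32, ColOK (polyOf 8 tab) gl.sp c := forall_cat ea32 h33
  have h31 : ∀ c ∈ s31, ColOK (polyOf 8 tab) gl.sp c := forall_cat ea31 h32
  have h30 : ∀ c ∈ s30, ColOK (polyOf 8 tab) gl.sp c := forall_cat ea30 h31
  have h29 : ∀ c ∈ s29, ColOK (polyOf 8 tab) gl.sp c := forall_cat ea29 h30
  have h28 : ∀ c ∈ s28, ColOK (polyOf 8 tab) gl.sp c := forall_cat ea28 h29
  have h27 : ∀ c ∈ s27, ColOK (polyOf 8 tab) gl.sp c := forall_cat ea27 h28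
  have h26 : ∀ c ∈ s26, ColOK (polyOf 8 tab) gl.sp c := forall_cat ea26 h27
  have h25 : ∀ c ∈ s25, ColOK (polyOf 8 tab) gl.sp c := forall_cat ea25 h26
  have h24 : ∀ c ∈ s24, ColOK (polyOf 8 tab) gl.sp c := forall_cat ea24 h25
  have h23 : ∀ c ∈ s23, ColOK (polyOf 8 tab) gl.sp c := forall_cat ea23 h24
  have h22 : ∀ c ∈ s22, ColOK (polyOf 8 tab) gl.sp c := forall_cat ea22 h23
  have h21 : ∀ c ∈ s21, ColOK (polyOf 8 tab) gl.sp c := forall_cat ea21 h22
  have h20 : ∀ c ∈ s20, ColOK (polyOf 8 tab) gl.sp c := forall_cat ea20 h21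
  have h19 : ∀ c ∈ s19, ColOK (polyOf 8 tab) gl.sp c := forall_cat ea19 h20
  have h18 : ∀ c ∈ s18, ColOK (polyOf 8 tab) gl.sp c := forall_cat ea18 h19
  have h17 : ∀ c ∈ s17, ColOK (polyOf 8 tab) gl.sp c := forall_cat ea17 h18
  have h16 : ∀ c ∈ s16, ColOK (polyOf 8 tab) gl.sp c := forall_cat ea16 h17
  have h15 : ∀ c ∈ s15, ColOK (polyOf 8 tab) gl.sp c := forall_cat ea15 h16
  have h14 : ∀ c ∈ s14, ColOK (polyOf 8 tab) gl.sp c := forall_cat ea14 h15
  have h13 : ∀ c ∈ s13, ColOK (polyOf 8 tab) gl.sp c := forall_cat ea13 h14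
  have h12 : ∀ c ∈ s12, ColOK (polyOf 8 tab) gl.sp c := forall_cat ea12 h13
  have h11 : ∀ c ∈ s11, ColOK (polyOf 8 tab) gl.sp c := forall_cat ea11 h12
  have h10 : ∀ c ∈ s10, ColOK (polyOf 8 tab) gl.sp c := forall_cat ea10 h11
  have h9 : ∀ c ∈ s9, ColOK (polyOf 8 tab) gl.sp c := forall_cat ea9 h10
  have h8 : ∀ c ∈ s8, ColOK (polyOf 8 tab) gl.sp c := forall_cat ea8 h9
  have h7 : ∀ c ∈ s7, ColOK (polyOf 8 tab) gl.sp c := forall_cat ea7 h8
  have h6 : ∀ c ∈ s6, ColOK (polyOf 8 tab) gl.sp c := forall_cat ea6 h7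
  have h5 : ∀ c ∈ s5, ColOK (polyOf 8 tab) gl.sp c := forall_cat ea5 h6
  have h4 : ∀ c ∈ s4, ColOK (polyOf 8 tab) gl.sp c := forall_cat ea4 h5
  have h3 : ∀ c ∈ s3, ColOK (polyOf 8 tab) gl.sp c := forall_cat ea3 h4
  have h2 : ∀ c ∈ s2, ColOK (polyOf 8 tab) gl.sp c := forall_cat ea2 h3
  have h1 : ∀ c ∈ s1, ColOK (polyOf 8 tab) gl.sp c := forall_cat ea1 h2
  have h0 : ∀ c ∈ s0, ColOK (polyOf 8 tab) gl.sp c := forall_cat ea0 h1
  exact h0

theorem kFirst : chkFirst gl (s0.getD (s0.length - 1) col0) (s0.getD 0 col0) (s0.getD 1 col0) = true := by decide +kernel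

theorem kLast : chkLast gl (s0.getD (s0.length - 2) col0) (s0.getD (s0.length - 1) col0) (s0.getD 0 col0) = true := by decide +kernel

theorem ne0 : s0 ≠ [] := by
  intro h
  have := congrArg List.length h
  revert this
  decide +kernel

theorem nc0 : c0 ≠ [] := by
  intro h
  have := congrArg List.length h
  revert this
  decide +kernel

theorem ne1 : s1 ≠ [] := by
  intro h
  have := congrArg List.length h
  revert this
  decide +kernel

theorem nc1 : c1 ≠ [] := by
  intro h
  have := congrArg List.length h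
  revert this
  decide +kernel

theorem ne2 : s2 ≠ [] := by
  intro h
  have := congrArg List.length h
  revert this
  decide +kernel

theorem nc2 : c2 ≠ [] := by
  intro h
  have := congrArg List.length h
  revert this
  decide +kernel

theorem ne3 : s3 ≠ [] := by
  intro h
  have := congrArg List.length h
  revert this
  decide +kernel

theorem nc3 : c3 ≠ [] := by
  intro h
  have := congrArg List.length h
  revert this
  decide +kernel

theorem ne4 : s4 ≠ [] := by
  intro h
  have := congrArg List.length h
  revert this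
  decide +kernel

theorem nc4 : c4 ≠ [] := by
  intro h
  have := congrArg List.length h
  revert this
  decide +kernel

theorem ne5 : s5 ≠ [] := by
  intro h
  have := congrArg List.length h
  revert this
  decide +kernel

theorem nc5 : c5 ≠ [] := by
  intro h
  have := congrArg List.length h
  revert this
  decide +kernel

theorem ne6 : s6 ≠ [] := by
  intro h
  have := congrArg List.length h
  revert this
  decide +kernel

theorem nc6 : c6 ≠ [] := by
  intro h
  have := congrArg List.length h
  revert this
  decide +kernel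

theorem ne7 : s7 ≠ [] := by
  intro h
  have := congrArg List.length h
  revert this
  decide +kernel

theorem nc7 : c7 ≠ [] := by
  intro h
  have := congrArg List.length h
  revert this
  decide +kernel

theorem ne8 : s8 ≠ [] := by
  intro h
  have := congrArg List.length h
  revert this
  decide +kernel

theorem nc8 : c8 ≠ [] := by
  intro h
  have := congrArg List.length h
  revert this
  decide +kernel

theorem ne9 : s9 ≠ [] := by
  intro h
  have := congrArg List.length h
  revert this
  decide +kernel

theorem nc9 : c9 ≠ [] := by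
  intro h
  have := congrArg List.length h
  revert this
  decide +kernel

theorem ne10 : s10 ≠ [] := by
  intro h
  have := congrArg List.length h
  revert this
  decide +kernel

theorem nc10 : c10 ≠ [] := by
  intro h
  have := congrArg List.length h
  revert this
  decide +kernel

theorem ne11 : s11 ≠ [] := by
  intro h
  have := congrArg List.length h
  revert this
  decide +kernel

theorem nc11 : c11 ≠ [] := by
  intro h
  have := congrArg List.length h
  revert this
  decide +kernel

theorem ne12 : s12 ≠ [] := by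
  intro h
  have := congrArg List.length h
  revert this
  decide +kernel

theorem nc12 : c12 ≠ [] := by
  intro h
  have := congrArg List.length h
  revert this
  decide +kernel

theorem ne13 : s13 ≠ [] := by
  intro h
  have := congrArg List.length h
  revert this
  decide +kernel

theorem nc13 : c13 ≠ [] := by
  intro h
  have := congrArg List.length h
  revert this
  decide +kernel

theorem ne14 : s14 ≠ [] := by
  intro h
  have := congrArg List.length h
  revert this
  decide +kernel

theorem nc14 : c14 ≠ [] := by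
  intro h
  have := congrArg List.length h
  revert this
  decide +kernel

theorem ne15 : s15 ≠ [] := by
  intro h
  have := congrArg List.length h
  revert this
  decide +kernel

theorem nc15 : c15 ≠ [] := by
  intro h
  have := congrArg List.length h
  revert this
  decide +kernel

theorem ne16 : s16 ≠ [] := by
  intro h
  have := congrArg List.length h
  revert this
  decide +kernel

theorem nc16 : c16 ≠ [] := by
  intro h
  have := congrArg List.length h
  revert this
  decide +kernel

theorem ne17 : s17 ≠ [] := by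
  intro h
  have := congrArg List.length h
  revert this
  decide +kernel

theorem nc17 : c17 ≠ [] := by
  intro h
  have := congrArg List.length h
  revert this
  decide +kernel

theorem ne18 : s18 ≠ [] := by
  intro h
  have := congrArg List.length h
  revert this
  decide +kernel

theorem nc18 : c18 ≠ [] := by
  intro h
  have := congrArg List.length h
  revert this
  decide +kernel

theorem ne19 : s19 ≠ [] := by
  intro h
  have := congrArg List.length h
  revert this
  decide +kernel

theorem nc19 : c19 ≠ [] := by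
  intro h
  have := congrArg List.length h
  revert this
  decide +kernel

theorem ne20 : s20 ≠ [] := by
  intro h
  have := congrArg List.length h
  revert this
  decide +kernel

theorem nc20 : c20 ≠ [] := by
  intro h
  have := congrArg List.length h
  revert this
  decide +kernel

theorem ne21 : s21 ≠ [] := by
  intro h
  have := congrArg List.length h
  revert this
  decide +kernel

theorem nc21 : c21 ≠ [] := by
  intro h
  have := congrArg List.length h
  revert this
  decide +kernel

theorem ne22 : s22 ≠ [] := by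
  intro h
  have := congrArg List.length h
  revert this
  decide +kernel

theorem nc22 : c22 ≠ [] := by
  intro h
  have := congrArg List.length h
  revert this
  decide +kernel

theorem ne23 : s23 ≠ [] := by
  intro h
  have := congrArg List.length h
  revert this
  decide +kernel

theorem nc23 : c23 ≠ [] := by
  intro h
  have := congrArg List.length h
  revert this
  decide +kernel

theorem ne24 : s24 ≠ [] := by
  intro h
  have := congrArg List.length h
  revert this
  decide +kernel

theorem nc24 : c24 ≠ [] := by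
  intro h
  have := congrArg List.length h
  revert this
  decide +kernel

theorem ne25 : s25 ≠ [] := by
  intro h
  have := congrArg List.length h
  revert this
  decide +kernel

theorem nc25 : c25 ≠ [] := by
  intro h
  have := congrArg List.length h
  revert this
  decide +kernel

theorem ne26 : s26 ≠ [] := by
  intro h
  have := congrArg List.length h
  revert this
  decide +kernel

theorem nc26 : c26 ≠ [] := by
  intro h
  have := congrArg List.length h
  revert this
  decide +kernel

theorem ne27 : s27 ≠ [] := by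
  intro h
  have := congrArg List.length h
  revert this
  decide +kernel

theorem nc27 : c27 ≠ [] := by
  intro h
  have := congrArg List.length h
  revert this
  decide +kernel

theorem ne28 : s28 ≠ [] := by
  intro h
  have := congrArg List.length h
  revert this
  decide +kernel

theorem nc28 : c28 ≠ [] := by
  intro h
  have := congrArg List.length h
  revert this
  decide +kernel

theorem ne29 : s29 ≠ [] := by
  intro h
  have := congrArg List.length h
  revert this
  decide +kernel

theorem nc29 : c29 ≠ [] := by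
  intro h
  have := congrArg List.length h
  revert this
  decide +kernel

theorem ne30 : s30 ≠ [] := by
  intro h
  have := congrArg List.length h
  revert this
  decide +kernel

theorem nc30 : c30 ≠ [] := by
  intro h
  have := congrArg List.length h
  revert this
  decide +kernel

theorem ne31 : s31 ≠ [] := by
  intro h
  have := congrArg List.length h
  revert this
  decide +kernel

theorem nc31 : c31 ≠ [] := by
  intro h
  have := congrArg List.length h
  revert this
  decide +kernel

theorem ne32 : s32 ≠ [] := by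
  intro h
  have := congrArg List.length h
  revert this
  decide +kernel

theorem nc32 : c32 ≠ [] := by
  intro h
  have := congrArg List.length h
  revert this
  decide +kernel

theorem ne33 : s33 ≠ [] := by
  intro h
  have := congrArg List.length h
  revert this
  decide +kernel

theorem nc33 : c33 ≠ [] := by
  intro h
  have := congrArg List.length h
  revert this
  decide +kernel

theorem ne34 : s34 ≠ [] := by
  intro h
  have := congrArg List.length h
  revert this
  decide +kernel

theorem nc34 : c34 ≠ [] := by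
  intro h
  have := congrArg List.length h
  revert this
  decide +kernel

theorem ne35 : s35 ≠ [] := by
  intro h
  have := congrArg List.length h
  revert this
  decide +kernel

theorem nc35 : c35 ≠ [] := by
  intro h
  have := congrArg List.length h
  revert this
  decide +kernel

theorem ne36 : s36 ≠ [] := by
  intro h
  have := congrArg List.length h
  revert this
  decide +kernel

theorem nc36 : c36 ≠ [] := by
  intro h
  have := congrArg List.length h
  revert this
  decide +kernel

theorem ne37 : s37 ≠ [] := by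
  intro h
  have := congrArg List.length h
  revert this
  decide +kernel

theorem nc37 : c37 ≠ [] := by
  intro h
  have := congrArg List.length h
  revert this
  decide +kernel

theorem ne38 : s38 ≠ [] := by
  intro h
  have := congrArg List.length h
  revert this
  decide +kernel

theorem nc38 : c38 ≠ [] := by
  intro h
  have := congrArg List.length h
  revert this
  decide +kernel

theorem ne39 : s39 ≠ [] := by
  intro h
  have := congrArg List.length h
  revert this
  decide +kernel

theorem nc39 : c39 ≠ [] := by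
  intro h
  have := congrArg List.length h
  revert this
  decide +kernel

theorem ne40 : s40 ≠ [] := by
  intro h
  have := congrArg List.length h
  revert this
  decide +kernel

theorem nc40 : c40 ≠ [] := by
  intro h
  have := congrArg List.length h
  revert this
  decide +kernel

theorem ne41 : s41 ≠ [] := by
  intro h
  have := congrArg List.length h
  revert this
  decide +kernel

theorem nc41 : c41 ≠ [] := by
  intro h
  have := congrArg List.length h
  revert this
  decide +kernel

theorem ne42 : s42 ≠ [] := by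
  intro h
  have := congrArg List.length h
  revert this
  decide +kernel

theorem nc42 : c42 ≠ [] := by
  intro h
  have := congrArg List.length h
  revert this
  decide +kernel

theorem ne43 : s43 ≠ [] := by
  intro h
  have := congrArg List.length h
  revert this
  decide +kernel

theorem nc43 : c43 ≠ [] := by
  intro h
  have := congrArg List.length h
  revert this
  decide +kernel

theorem ne44 : s44 ≠ [] := by
  intro h
  have := congrArg List.length h
  revert this
  decide +kernel

theorem nc44 : c44 ≠ [] := by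
  intro h
  have := congrArg List.length h
  revert this
  decide +kernel

theorem ne45 : s45 ≠ [] := by
  intro h
  have := congrArg List.length h
  revert this
  decide +kernel

theorem nc45 : c45 ≠ [] := by
  intro h
  have := congrArg List.length h
  revert this
  decide +kernel

theorem ne46 : s46 ≠ [] := by
  intro h
  have := congrArg List.length h
  revert this
  decide +kernel

theorem nc46 : c46 ≠ [] := by
  intro h
  have := congrArg List.length h
  revert this
  decide +kernel

theorem ne47 : s47 ≠ [] := by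
  intro h
  have := congrArg List.length h
  revert this
  decide +kernel

theorem nc47 : c47 ≠ [] := by
  intro h
  have := congrArg List.length h
  revert this
  decide +kernel

theorem ne48 : s48 ≠ [] := by
  intro h
  have := congrArg List.length h
  revert this
  decide +kernel

theorem nc48 : c48 ≠ [] := by
  intro h
  have := congrArg List.length h
  revert this
  decide +kernel

theorem ne49 : s49 ≠ [] := by
  intro h
  have := congrArg List.length h
  revert this
  decide +kernel

theorem nc49 : c49 ≠ [] := by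
  intro h
  have := congrArg List.length h
  revert this
  decide +kernel

theorem ne50 : s50 ≠ [] := by
  intro h
  have := congrArg List.length h
  revert this
  decide +kernel

theorem nc50 : c50 ≠ [] := by
  intro h
  have := congrArg List.length h
  revert this
  decide +kernel

theorem ne51 : s51 ≠ [] := by
  intro h
  have := congrArg List.length h
  revert this
  decide +kernel

theorem nc51 : c51 ≠ [] := by
  intro h
  have := congrArg List.length h
  revert this
  decide +kernel

theorem ne52 : s52 ≠ [] := by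
  intro h
  have := congrArg List.length h
  revert this
  decide +kernel

theorem nc52 : c52 ≠ [] := by
  intro h
  have := congrArg List.length h
  revert this
  decide +kernel

theorem ne53 : s53 ≠ [] := by
  intro h
  have := congrArg List.length h
  revert this
  decide +kernel

theorem nc53 : c53 ≠ [] := by
  intro h
  have := congrArg List.length h
  revert this
  decide +kernel

theorem ne54 : s54 ≠ [] := by
  intro h
  have := congrArg List.length h
  revert this
  decide +kernel

theorem nc54 : c54 ≠ [] := by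
  intro h
  have := congrArg List.length h
  revert this
  decide +kernel

theorem ne55 : s55 ≠ [] := by
  intro h
  have := congrArg List.length h
  revert this
  decide +kernel

theorem nc55 : c55 ≠ [] := by
  intro h
  have := congrArg List.length h
  revert this
  decide +kernel

theorem ne56 : s56 ≠ [] := by
  intro h
  have := congrArg List.length h
  revert this
  decide +kernel

theorem nc56 : c56 ≠ [] := by
  intro h
  have := congrArg List.length h
  revert this
  decide +kernel

theorem ne57 : s57 ≠ [] := by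
  intro h
  have := congrArg List.length h
  revert this
  decide +kernel

theorem nc57 : c57 ≠ [] := by
  intro h
  have := congrArg List.length h
  revert this
  decide +kernel

theorem ne58 : s58 ≠ [] := by
  intro h
  have := congrArg List.length h
  revert this
  decide +kernel

theorem nc58 : c58 ≠ [] := by
  intro h
  have := congrArg List.length h
  revert this
  decide +kernel

theorem ne59 : s59 ≠ [] := by
  intro h
  have := congrArg List.length h
  revert this
  decide +kernel

theorem nc59 : c59 ≠ [] := by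
  intro h
  have := congrArg List.length h
  revert this
  decide +kernel

theorem ne60 : s60 ≠ [] := by
  intro h
  have := congrArg List.length h
  revert this
  decide +kernel

theorem nc60 : c60 ≠ [] := by
  intro h
  have := congrArg List.length h
  revert this
  decide +kernel

theorem ne61 : s61 ≠ [] := by
  intro h
  have := congrArg List.length h
  revert this
  decide +kernel

theorem nc61 : c61 ≠ [] := by
  intro h
  have := congrArg List.length h
  revert this
  decide +kernel

theorem ne62 : s62 ≠ [] := by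
  intro h
  have := congrArg List.length h
  revert this
  decide +kernel

theorem nc62 : c62 ≠ [] := by
  intro h
  have := congrArg List.length h
  revert this
  decide +kernel

theorem ne63 : s63 ≠ [] := by
  intro h
  have := congrArg List.length h
  revert this
  decide +kernel

theorem nc63 : c63 ≠ [] := by
  intro h
  have := congrArg List.length h
  revert this
  decide +kernel

theorem ne64 : s64 ≠ [] := by
  intro h
  have := congrArg List.length h
  revert this
  decide +kernel

theorem nc64 : c64 ≠ [] := by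
  intro h
  have := congrArg List.length h
  revert this
  decide +kernel

theorem ne65 : s65 ≠ [] := by
  intro h
  have := congrArg List.length h
  revert this
  decide +kernel

theorem nc65 : c65 ≠ [] := by
  intro h
  have := congrArg List.length h
  revert this
  decide +kernel

theorem ne66 : s66 ≠ [] := by
  intro h
  have := congrArg List.length h
  revert this
  decide +kernel

theorem nc66 : c66 ≠ [] := by
  intro h
  have := congrArg List.length h
  revert this
  decide +kernel

theorem ne67 : s67 ≠ [] := by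
  intro h
  have := congrArg List.length h
  revert this
  decide +kernel

theorem nc67 : c67 ≠ [] := by
  intro h
  have := congrArg List.length h
  revert this
  decide +kernel

theorem ne68 : s68 ≠ [] := by
  intro h
  have := congrArg List.length h
  revert this
  decide +kernel

theorem nc68 : c68 ≠ [] := by
  intro h
  have := congrArg List.length h
  revert this
  decide +kernel

theorem ne69 : s69 ≠ [] := by
  intro h
  have := congrArg List.length h
  revert this
  decide +kernel

theorem nc69 : c69 ≠ [] := by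
  intro h
  have := congrArg List.length h
  revert this
  decide +kernel

theorem ne70 : s70 ≠ [] := by
  intro h
  have := congrArg List.length h
  revert this
  decide +kernel

theorem nc70 : c70 ≠ [] := by
  intro h
  have := congrArg List.length h
  revert this
  decide +kernel

theorem ne71 : s71 ≠ [] := by
  intro h
  have := congrArg List.length h
  revert this
  decide +kernel

theorem nc71 : c71 ≠ [] := by
  intro h
  have := congrArg List.length h
  revert this
  decide +kernel

theorem ne72 : s72 ≠ [] := by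
  intro h
  have := congrArg List.length h
  revert this
  decide +kernel

theorem nc72 : c72 ≠ [] := by
  intro h
  have := congrArg List.length h
  revert this
  decide +kernel

theorem ne73 : s73 ≠ [] := by
  intro h
  have := congrArg List.length h
  revert this
  decide +kernel

theorem nc73 : c73 ≠ [] := by
  intro h
  have := congrArg List.length h
  revert this
  decide +kernel

theorem ne74 : s74 ≠ [] := by
  intro h
  have := congrArg List.length h
  revert this
  decide +kernel

theorem nc74 : c74 ≠ [] := by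
  intro h
  have := congrArg List.length h
  revert this
  decide +kernel

theorem ne75 : s75 ≠ [] := by
  intro h
  have := congrArg List.length h
  revert this
  decide +kernel

theorem nc75 : c75 ≠ [] := by
  intro h
  have := congrArg List.length h
  revert this
  decide +kernel

theorem ne76 : s76 ≠ [] := by
  intro h
  have := congrArg List.length h
  revert this
  decide +kernel

theorem nc76 : c76 ≠ [] := by
  intro h
  have := congrArg List.length h
  revert this
  decide +kernel

theorem ne77 : s77 ≠ [] := by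
  intro h
  have := congrArg List.length h
  revert this
  decide +kernel

theorem nc77 : c77 ≠ [] := by
  intro h
  have := congrArg List.length h
  revert this
  decide +kernel

theorem nt0 : c0.tail ≠ [] := by
  intro h
  have := congrArg List.length h
  revert this
  decide +kernel

theorem gd1 : s1.getD 0 col0 = c1.getD 0 col0 := by decide +kernel

theorem gd2 : s2.getD 0 col0 = c2.getD 0 col0 := by decide +kernel

theorem gd3 : s3.getD 0 col0 = c3.getD 0 col0 := by decide +kernel

theorem gd4 : s4.getD 0 col0 = c4.getD 0 col0 := by decide +kernel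

theorem gd5 : s5.getD 0 col0 = c5.getD 0 col0 := by decide +kernel

theorem gd6 : s6.getD 0 col0 = c6.getD 0 col0 := by decide +kernel

theorem gd7 : s7.getD 0 col0 = c7.getD 0 col0 := by decide +kernel

theorem gd8 : s8.getD 0 col0 = c8.getD 0 col0 := by decide +kernel

theorem gd9 : s9.getD 0 col0 = c9.getD 0 col0 := by decide +kernel

theorem gd10 : s10.getD 0 col0 = c10.getD 0 col0 := by decide +kernel

theorem gd11 : s11.getD 0 col0 = c11.getD 0 col0 := by decide +kernel

theorem gd12 : s12.getD 0 col0 = c12.getD 0 col0 := by decide +kernel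

theorem gd13 : s13.getD 0 col0 = c13.getD 0 col0 := by decide +kernel

theorem gd14 : s14.getD 0 col0 = c14.getD 0 col0 := by decide +kernel

theorem gd15 : s15.getD 0 col0 = c15.getD 0 col0 := by decide +kernel

theorem gd16 : s16.getD 0 col0 = c16.getD 0 col0 := by decide +kernel

theorem gd17 : s17.getD 0 col0 = c17.getD 0 col0 := by decide +kernel

theorem gd18 : s18.getD 0 col0 = c18.getD 0 col0 := by decide +kernel

theorem gd19 : s19.getD 0 col0 = c19.getD 0 col0 := by decide +kernel

theorem gd20 : s20.getD 0 col0 = c20.getD 0 col0 := by decide +kernel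

theorem gd21 : s21.getD 0 col0 = c21.getD 0 col0 := by decide +kernel

theorem gd22 : s22.getD 0 col0 = c22.getD 0 col0 := by decide +kernel

theorem gd23 : s23.getD 0 col0 = c23.getD 0 col0 := by decide +kernel

theorem gd24 : s24.getD 0 col0 = c24.getD 0 col0 := by decide +kernel

theorem gd25 : s25.getD 0 col0 = c25.getD 0 col0 := by decide +kernel

theorem gd26 : s26.getD 0 col0 = c26.getD 0 col0 := by decide +kernel

theorem gd27 : s27.getD 0 col0 = c27.getD 0 col0 := by decide +kernel

theorem gd28 : s28.getD 0 col0 = c28.getD 0 col0 := by decide +kernel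

theorem gd29 : s29.getD 0 col0 = c29.getD 0 col0 := by decide +kernel

theorem gd30 : s30.getD 0 col0 = c30.getD 0 col0 := by decide +kernel

theorem gd31 : s31.getD 0 col0 = c31.getD 0 col0 := by decide +kernel

theorem gd32 : s32.getD 0 col0 = c32.getD 0 col0 := by decide +kernel

theorem gd33 : s33.getD 0 col0 = c33.getD 0 col0 := by decide +kernel

theorem gd34 : s34.getD 0 col0 = c34.getD 0 col0 := by decide +kernel

theorem gd35 : s35.getD 0 col0 = c35.getD 0 col0 := by decide +kernel

theorem gd36 : s36.getD 0 col0 = c36.getD 0 col0 := by decide +kernel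

theorem gd37 : s37.getD 0 col0 = c37.getD 0 col0 := by decide +kernel

theorem gd38 : s38.getD 0 col0 = c38.getD 0 col0 := by decide +kernel

theorem gd39 : s39.getD 0 col0 = c39.getD 0 col0 := by decide +kernel

theorem gd40 : s40.getD 0 col0 = c40.getD 0 col0 := by decide +kernel

theorem gd41 : s41.getD 0 col0 = c41.getD 0 col0 := by decide +kernel

theorem gd42 : s42.getD 0 col0 = c42.getD 0 col0 := by decide +kernel

theorem gd43 : s43.getD 0 col0 = c43.getD 0 col0 := by decide +kernel

theorem gd44 : s44.getD 0 col0 = c44.getD 0 col0 := by decide +kernel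

theorem gd45 : s45.getD 0 col0 = c45.getD 0 col0 := by decide +kernel

theorem gd46 : s46.getD 0 col0 = c46.getD 0 col0 := by decide +kernel

theorem gd47 : s47.getD 0 col0 = c47.getD 0 col0 := by decide +kernel

theorem gd48 : s48.getD 0 col0 = c48.getD 0 col0 := by decide +kernel

theorem gd49 : s49.getD 0 col0 = c49.getD 0 col0 := by decide +kernel

theorem gd50 : s50.getD 0 col0 = c50.getD 0 col0 := by decide +kernel

theorem gd51 : s51.getD 0 col0 = c51.getD 0 col0 := by decide +kernel

theorem gd52 : s52.getD 0 col0 = c52.getD 0 col0 := by decide +kernel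

theorem gd53 : s53.getD 0 col0 = c53.getD 0 col0 := by decide +kernel

theorem gd54 : s54.getD 0 col0 = c54.getD 0 col0 := by decide +kernel

theorem gd55 : s55.getD 0 col0 = c55.getD 0 col0 := by decide +kernel

theorem gd56 : s56.getD 0 col0 = c56.getD 0 col0 := by decide +kernel

theorem gd57 : s57.getD 0 col0 = c57.getD 0 col0 := by decide +kernel

theorem gd58 : s58.getD 0 col0 = c58.getD 0 col0 := by decide +kernel

theorem gd59 : s59.getD 0 col0 = c59.getD 0 col0 := by decide +kernel

theorem gd60 : s60.getD 0 col0 = c60.getD 0 col0 := by decide +kernel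

theorem gd61 : s61.getD 0 col0 = c61.getD 0 col0 := by decide +kernel

theorem gd62 : s62.getD 0 col0 = c62.getD 0 col0 := by decide +kernel

theorem gd63 : s63.getD 0 col0 = c63.getD 0 col0 := by decide +kernel

theorem gd64 : s64.getD 0 col0 = c64.getD 0 col0 := by decide +kernel

theorem gd65 : s65.getD 0 col0 = c65.getD 0 col0 := by decide +kernel

theorem gd66 : s66.getD 0 col0 = c66.getD 0 col0 := by decide +kernel

theorem gd67 : s67.getD 0 col0 = c67.getD 0 col0 := by decide +kernel

theorem gd68 : s68.getD 0 col0 = c68.getD 0 col0 := by decide +kernel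

theorem gd69 : s69.getD 0 col0 = c69.getD 0 col0 := by decide +kernel

theorem gd70 : s70.getD 0 col0 = c70.getD 0 col0 := by decide +kernel

theorem gd71 : s71.getD 0 col0 = c71.getD 0 col0 := by decide +kernel

theorem gd72 : s72.getD 0 col0 = c72.getD 0 col0 := by decide +kernel

theorem gd73 : s73.getD 0 col0 = c73.getD 0 col0 := by decide +kernel

theorem gd74 : s74.getD 0 col0 = c74.getD 0 col0 := by decide +kernel

theorem gd75 : s75.getD 0 col0 = c75.getD 0 col0 := by decide +kernel

theorem gd76 : s76.getD 0 col0 = c76.getD 0 col0 := by decide +kernel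

theorem gd77 : s77.getD 0 col0 = c77.getD 0 col0 := by decide +kernel

theorem kAll : chkAll gl (s0.getD 0 col0) s0.tail = true := by
  have h77 : chkAll gl (c76.getLastD col0) s77 = true := k77
  have h76 : chkAll gl (c75.getLastD col0) s76 = true := chkAll_cat nc76 ne77 (by rw [gd77]; exact k76) h77
  have h75 : chkAll gl (c74.getLastD col0) s75 = true := chkAll_cat nc75 ne76 (by rw [gd76]; exact k75) h76
  have h74 : chkAll gl (c73.getLastD col0) s74 = true := chkAll_cat nc74 ne75 (by rw [gd75]; exact k74) h75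
  have h73 : chkAll gl (c72.getLastD col0) s73 = true := chkAll_cat nc73 ne74 (by rw [gd74]; exact k73) h74
  have h72 : chkAll gl (c71.getLastD col0) s72 = true := chkAll_cat nc72 ne73 (by rw [gd73]; exact k72) h73
  have h71 : chkAll gl (c70.getLastD col0) s71 = true := chkAll_cat nc71 ne72 (by rw [gd72]; exact k71) h72
  have h70 : chkAll gl (c69.getLastD col0) s70 = true := chkAll_cat nc70 ne71 (by rw [gd71]; exact k70) h71
  have h69 : chkAll gl (c68.getLastD col0) s69 = true := chkAll_cat nc69 ne70 (by rw [gd70]; exact k69) h70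
  have h68 : chkAll gl (c67.getLastD col0) s68 = true := chkAll_cat nc68 ne69 (by rw [gd69]; exact k68) h69
  have h67 : chkAll gl (c66.getLastD col0) s67 = true := chkAll_cat nc67 ne68 (by rw [gd68]; exact k67) h68
  have h66 : chkAll gl (c65.getLastD col0) s66 = true := chkAll_cat nc66 ne67 (by rw [gd67]; exact k66) h67
  have h65 : chkAll gl (c64.getLastD col0) s65 = true := chkAll_cat nc65 ne66 (by rw [gd66]; exact k65) h66
  have h64 : chkAll gl (c63.getLastD col0) s64 = true := chkAll_cat nc64 ne65 (by rw [gd65]; exact k64) h65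
  have h63 : chkAll gl (c62.getLastD col0) s63 = true := chkAll_cat nc63 ne64 (by rw [gd64]; exact k63) h64
  have h62 : chkAll gl (c61.getLastD col0) s62 = true := chkAll_cat nc62 ne63 (by rw [gd63]; exact k62) h63
  have h61 : chkAll gl (c60.getLastD col0) s61 = true := chkAll_cat nc61 ne62 (by rw [gd62]; exact k61) h62
  have h60 : chkAll gl (c59.getLastD col0) s60 = true := chkAll_cat nc60 ne61 (by rw [gd61]; exact k60) h61
  have h59 : chkAll gl (c58.getLastD col0) s59 = true := chkAll_cat nc59 ne60 (by rw [gd60]; exact k59) h60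
  have h58 : chkAll gl (c57.getLastD col0) s58 = true := chkAll_cat nc58 ne59 (by rw [gd59]; exact k58) h59
  have h57 : chkAll gl (c56.getLastD col0) s57 = true := chkAll_cat nc57 ne58 (by rw [gd58]; exact k57) h58
  have h56 : chkAll gl (c55.getLastD col0) s56 = true := chkAll_cat nc56 ne57 (by rw [gd57]; exact k56) h57
  have h55 : chkAll gl (c54.getLastD col0) s55 = true := chkAll_cat nc55 ne56 (by rw [gd56]; exact k55) h56
  have h54 : chkAll gl (c53.getLastD col0) s54 = true := chkAll_cat nc54 ne55 (by rw [gd55]; exact k54) h55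
  have h53 : chkAll gl (c52.getLastD col0) s53 = true := chkAll_cat nc53 ne54 (by rw [gd54]; exact k53) h54
  have h52 : chkAll gl (c51.getLastD col0) s52 = true := chkAll_cat nc52 ne53 (by rw [gd53]; exact k52) h53
  have h51 : chkAll gl (c50.getLastD col0) s51 = true := chkAll_cat nc51 ne52 (by rw [gd52]; exact k51) h52
  have h50 : chkAll gl (c49.getLastD col0) s50 = true := chkAll_cat nc50 ne51 (by rw [gd51]; exact k50) h51
  have h49 : chkAll gl (c48.getLastD col0) s49 = true := chkAll_cat nc49 ne50 (by rw [gd50]; exact k49) h50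
  have h48 : chkAll gl (c47.getLastD col0) s48 = true := chkAll_cat nc48 ne49 (by rw [gd49]; exact k48) h49
  have h47 : chkAll gl (c46.getLastD col0) s47 = true := chkAll_cat nc47 ne48 (by rw [gd48]; exact k47) h48
  have h46 : chkAll gl (c45.getLastD col0) s46 = true := chkAll_cat nc46 ne47 (by rw [gd47]; exact k46) h47
  have h45 : chkAll gl (c44.getLastD col0) s45 = true := chkAll_cat nc45 ne46 (by rw [gd46]; exact k45) h46
  have h44 : chkAll gl (c43.getLastD col0) s44 = true := chkAll_cat nc44 ne45 (by rw [gd45]; exact k44) h45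
  have h43 : chkAll gl (c42.getLastD col0) s43 = true := chkAll_cat nc43 ne44 (by rw [gd44]; exact k43) h44
  have h42 : chkAll gl (c41.getLastD col0) s42 = true := chkAll_cat nc42 ne43 (by rw [gd43]; exact k42) h43
  have h41 : chkAll gl (c40.getLastD col0) s41 = true := chkAll_cat nc41 ne42 (by rw [gd42]; exact k41) h42
  have h40 : chkAll gl (c39.getLastD col0) s40 = true := chkAll_cat nc40 ne41 (by rw [gd41]; exact k40) h41
  have h39 : chkAll gl (c38.getLastD col0) s39 = true := chkAll_cat nc39 ne40 (by rw [gd40]; exact k39) h40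
  have h38 : chkAll gl (c37.getLastD col0) s38 = true := chkAll_cat nc38 ne39 (by rw [gd39]; exact k38) h39
  have h37 : chkAll gl (c36.getLastD col0) s37 = true := chkAll_cat nc37 ne38 (by rw [gd38]; exact k37) h38
  have h36 : chkAll gl (c35.getLastD col0) s36 = true := chkAll_cat nc36 ne37 (by rw [gd37]; exact k36) h37
  have h35 : chkAll gl (c34.getLastD col0) s35 = true := chkAll_cat nc35 ne36 (by rw [gd36]; exact k35) h36
  have h34 : chkAll gl (c33.getLastD col0) s34 = true := chkAll_cat nc34 ne35 (by rw [gd35]; exact k34) h35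
  have h33 : chkAll gl (c32.getLastD col0) s33 = true := chkAll_cat nc33 ne34 (by rw [gd34]; exact k33) h34
  have h32 : chkAll gl (c31.getLastD col0) s32 = true := chkAll_cat nc32 ne33 (by rw [gd33]; exact k32) h33
  have h31 : chkAll gl (c30.getLastD col0) s31 = true := chkAll_cat nc31 ne32 (by rw [gd32]; exact k31) h32
  have h30 : chkAll gl (c29.getLastD col0) s30 = true := chkAll_cat nc30 ne31 (by rw [gd31]; exact k30) h31
  have h29 : chkAll gl (c28.getLastD col0) s29 = true := chkAll_cat nc29 ne30 (by rw [gd30]; exact k29) h30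
  have h28 : chkAll gl (c27.getLastD col0) s28 = true := chkAll_cat nc28 ne29 (by rw [gd29]; exact k28) h29
  have h27 : chkAll gl (c26.getLastD col0) s27 = true := chkAll_cat nc27 ne28 (by rw [gd28]; exact k27) h28
  have h26 : chkAll gl (c25.getLastD col0) s26 = true := chkAll_cat nc26 ne27 (by rw [gd27]; exact k26) h27
  have h25 : chkAll gl (c24.getLastD col0) s25 = true := chkAll_cat nc25 ne26 (by rw [gd26]; exact k25) h26
  have h24 : chkAll gl (c23.getLastD col0) s24 = true := chkAll_cat nc24 ne25 (by rw [gd25]; exact k24) h25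
  have h23 : chkAll gl (c22.getLastD col0) s23 = true := chkAll_cat nc23 ne24 (by rw [gd24]; exact k23) h24
  have h22 : chkAll gl (c21.getLastD col0) s22 = true := chkAll_cat nc22 ne23 (by rw [gd23]; exact k22) h23
  have h21 : chkAll gl (c20.getLastD col0) s21 = true := chkAll_cat nc21 ne22 (by rw [gd22]; exact k21) h22
  have h20 : chkAll gl (c19.getLastD col0) s20 = true := chkAll_cat nc20 ne21 (by rw [gd21]; exact k20) h21
  have h19 : chkAll gl (c18.getLastD col0) s19 = true := chkAll_cat nc19 ne20 (by rw [gd20]; exact k19) h20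
  have h18 : chkAll gl (c17.getLastD col0) s18 = true := chkAll_cat nc18 ne19 (by rw [gd19]; exact k18) h19
  have h17 : chkAll gl (c16.getLastD col0) s17 = true := chkAll_cat nc17 ne18 (by rw [gd18]; exact k17) h18
  have h16 : chkAll gl (c15.getLastD col0) s16 = true := chkAll_cat nc16 ne17 (by rw [gd17]; exact k16) h17
  have h15 : chkAll gl (c14.getLastD col0) s15 = true := chkAll_cat nc15 ne16 (by rw [gd16]; exact k15) h16
  have h14 : chkAll gl (c13.getLastD col0) s14 = true := chkAll_cat nc14 ne15 (by rw [gd15]; exact k14) h15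
  have h13 : chkAll gl (c12.getLastD col0) s13 = true := chkAll_cat nc13 ne14 (by rw [gd14]; exact k13) h14
  have h12 : chkAll gl (c11.getLastD col0) s12 = true := chkAll_cat nc12 ne13 (by rw [gd13]; exact k12) h13
  have h11 : chkAll gl (c10.getLastD col0) s11 = true := chkAll_cat nc11 ne12 (by rw [gd12]; exact k11) h12
  have h10 : chkAll gl (c9.getLastD col0) s10 = true := chkAll_cat nc10 ne11 (by rw [gd11]; exact k10) h11
  have h9 : chkAll gl (c8.getLastD col0) s9 = true := chkAll_cat nc9 ne10 (by rw [gd10]; exact k9) h10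
  have h8 : chkAll gl (c7.getLastD col0) s8 = true := chkAll_cat nc8 ne9 (by rw [gd9]; exact k8) h9
  have h7 : chkAll gl (c6.getLastD col0) s7 = true := chkAll_cat nc7 ne8 (by rw [gd8]; exact k7) h8
  have h6 : chkAll gl (c5.getLastD col0) s6 = true := chkAll_cat nc6 ne7 (by rw [gd7]; exact k6) h7
  have h5 : chkAll gl (c4.getLastD col0) s5 = true := chkAll_cat nc5 ne6 (by rw [gd6]; exact k5) h6
  have h4 : chkAll gl (c3.getLastD col0) s4 = true := chkAll_cat nc4 ne5 (by rw [gd5]; exact k4) h5
  have h3 : chkAll gl (c2.getLastD col0) s3 = true := chkAll_cat nc3 ne4 (by rw [gd4]; exact k3) h4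
  have h2 : chkAll gl (c1.getLastD col0) s2 = true := chkAll_cat nc2 ne3 (by rw [gd3]; exact k2) h3
  have h1 : chkAll gl (c0.getLastD col0) s1 = true := chkAll_cat nc1 ne2 (by rw [gd2]; exact k1) h2
  have h0 : chkAll gl (c0.getD 0 col0) (c0.tail ++ s1) = true := chkAll_cat nt0 ne1 (by rw [gd1]; exact k0) (by
    have e : c0.tail.getLastD col0 = c0.getLastD col0 := by decide +kernel
    rw [e]; exact h1)
  have e1 : s0.getD 0 col0 = c0.getD 0 col0 := by decide +kernel
  have e2 : s0.tail = c0.tail ++ s1 := List.tail_append_of_ne_nil nc0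
  rw [e1, e2]
  exact h0

theorem rts : rootsL gl 0 s0 = r0 ++ (r1 ++ (r2 ++ (r3 ++ (r4 ++ (r5 ++ (r6 ++ (r7 ++ (r8 ++ (r9 ++ (r10 ++ (r11 ++ (r12 ++ (r13 ++ (r14 ++ (r15 ++ (r16 ++ (r17 ++ (r18 ++ (r19 ++ (r20 ++ (r21 ++ (r22 ++ (r23 ++ (r24 ++ (r25 ++ (r26 ++ (r27 ++ (r28 ++ (r29 ++ (r30 ++ (r31 ++ (r32 ++ (r33 ++ (r34 ++ (r35 ++ (r36 ++ (r37 ++ (r38 ++ (r39 ++ (r40 ++ (r41 ++ (r42 ++ (r43 ++ (r44 ++ (r45 ++ (r46 ++ (r47 ++ (r48 ++ (r49 ++ (r50 ++ (r51 ++ (r52 ++ (r53 ++ (r54 ++ (r55 ++ (r56 ++ (r57 ++ (r58 ++ (r59 ++ (r60 ++ (r61 ++ (r62 ++ (r63 ++ (r64 ++ (r65 ++ (r66 ++ (r67 ++ (r68 ++ (r69 ++ (r70 ++ (r71 ++ (r72 ++ (r73 ++ (r74 ++ (r75 ++ (r76 ++ (r77))))))))))))))))))))))))))))))))))))))))))))))))))))))))))))))))))))))))))))) := by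
  have h77 : rootsL gl 878 s77 = r77 := q77
  have l76 : 867 + c76.length = 878 := by decide +kernel
  have h76 : rootsL gl 867 s76 = r76 ++ _ := rootsL_cat q76 l76 h77
  have l75 : 856 + c75.length = 867 := by decide +kernel
  have h75 : rootsL gl 856 s75 = r75 ++ _ := rootsL_cat q75 l75 h76
  have l74 : 844 + c74.length = 856 := by decide +kernel
  have h74 : rootsL gl 844 s74 = r74 ++ _ := rootsL_cat q74 l74 h75
  have l73 : 833 + c73.length = 844 := by decide +kernel
  have h73 : rootsL gl 833 s73 = r73 ++ _ := rootsL_cat q73 l73 h74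
  have l72 : 822 + c72.length = 833 := by decide +kernel
  have h72 : rootsL gl 822 s72 = r72 ++ _ := rootsL_cat q72 l72 h73
  have l71 : 810 + c71.length = 822 := by decide +kernel
  have h71 : rootsL gl 810 s71 = r71 ++ _ := rootsL_cat q71 l71 h72
  have l70 : 797 + c70.length = 810 := by decide +kernel
  have h70 : rootsL gl 797 s70 = r70 ++ _ := rootsL_cat q70 l70 h71
  have l69 : 784 + c69.length = 797 := by decide +kernel
  have h69 : rootsL gl 784 s69 = r69 ++ _ := rootsL_cat q69 l69 h70
  have l68 : 770 + c68.length = 784 := by decide +kernel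
  have h68 : rootsL gl 770 s68 = r68 ++ _ := rootsL_cat q68 l68 h69
  have l67 : 758 + c67.length = 770 := by decide +kernel
  have h67 : rootsL gl 758 s67 = r67 ++ _ := rootsL_cat q67 l67 h68
  have l66 : 746 + c66.length = 758 := by decide +kernel
  have h66 : rootsL gl 746 s66 = r66 ++ _ := rootsL_cat q66 l66 h67
  have l65 : 734 + c65.length = 746 := by decide +kernel
  have h65 : rootsL gl 734 s65 = r65 ++ _ := rootsL_cat q65 l65 h66
  have l64 : 722 + c64.length = 734 := by decide +kernel
  have h64 : rootsL gl 722 s64 = r64 ++ _ := rootsL_cat q64 l64 h65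
  have l63 : 709 + c63.length = 722 := by decide +kernel
  have h63 : rootsL gl 709 s63 = r63 ++ _ := rootsL_cat q63 l63 h64
  have l62 : 699 + c62.length = 709 := by decide +kernel
  have h62 : rootsL gl 699 s62 = r62 ++ _ := rootsL_cat q62 l62 h63
  have l61 : 691 + c61.length = 699 := by decide +kernel
  have h61 : rootsL gl 691 s61 = r61 ++ _ := rootsL_cat q61 l61 h62
  have l60 : 683 + c60.length = 691 := by decide +kernel
  have h60 : rootsL gl 683 s60 = r60 ++ _ := rootsL_cat q60 l60 h61
  have l59 : 671 + c59.length = 683 := by decide +kernel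
  have h59 : rootsL gl 671 s59 = r59 ++ _ := rootsL_cat q59 l59 h60
  have l58 : 659 + c58.length = 671 := by decide +kernel
  have h58 : rootsL gl 659 s58 = r58 ++ _ := rootsL_cat q58 l58 h59
  have l57 : 646 + c57.length = 659 := by decide +kernel
  have h57 : rootsL gl 646 s57 = r57 ++ _ := rootsL_cat q57 l57 h58
  have l56 : 633 + c56.length = 646 := by decide +kernel
  have h56 : rootsL gl 633 s56 = r56 ++ _ := rootsL_cat q56 l56 h57
  have l55 : 621 + c55.length = 633 := by decide +kernel
  have h55 : rootsL gl 621 s55 = r55 ++ _ := rootsL_cat q55 l55 h56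
  have l54 : 611 + c54.length = 621 := by decide +kernel
  have h54 : rootsL gl 611 s54 = r54 ++ _ := rootsL_cat q54 l54 h55
  have l53 : 601 + c53.length = 611 := by decide +kernel
  have h53 : rootsL gl 601 s53 = r53 ++ _ := rootsL_cat q53 l53 h54
  have l52 : 591 + c52.length = 601 := by decide +kernel
  have h52 : rootsL gl 591 s52 = r52 ++ _ := rootsL_cat q52 l52 h53
  have l51 : 581 + c51.length = 591 := by decide +kernel
  have h51 : rootsL gl 581 s51 = r51 ++ _ := rootsL_cat q51 l51 h52
  have l50 : 571 + c50.length = 581 := by decide +kernel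
  have h50 : rootsL gl 571 s50 = r50 ++ _ := rootsL_cat q50 l50 h51
  have l49 : 561 + c49.length = 571 := by decide +kernel
  have h49 : rootsL gl 561 s49 = r49 ++ _ := rootsL_cat q49 l49 h50
  have l48 : 551 + c48.length = 561 := by decide +kernel
  have h48 : rootsL gl 551 s48 = r48 ++ _ := rootsL_cat q48 l48 h49
  have l47 : 541 + c47.length = 551 := by decide +kernel
  have h47 : rootsL gl 541 s47 = r47 ++ _ := rootsL_cat q47 l47 h48
  have l46 : 531 + c46.length = 541 := by decide +kernel
  have h46 : rootsL gl 531 s46 = r46 ++ _ := rootsL_cat q46 l46 h47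
  have l45 : 521 + c45.length = 531 := by decide +kernel
  have h45 : rootsL gl 521 s45 = r45 ++ _ := rootsL_cat q45 l45 h46
  have l44 : 511 + c44.length = 521 := by decide +kernel
  have h44 : rootsL gl 511 s44 = r44 ++ _ := rootsL_cat q44 l44 h45
  have l43 : 501 + c43.length = 511 := by decide +kernel
  have h43 : rootsL gl 501 s43 = r43 ++ _ := rootsL_cat q43 l43 h44
  have l42 : 491 + c42.length = 501 := by decide +kernel
  have h42 : rootsL gl 491 s42 = r42 ++ _ := rootsL_cat q42 l42 h43
  have l41 : 481 + c41.length = 491 := by decide +kernel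
  have h41 : rootsL gl 481 s41 = r41 ++ _ := rootsL_cat q41 l41 h42
  have l40 : 471 + c40.length = 481 := by decide +kernel
  have h40 : rootsL gl 471 s40 = r40 ++ _ := rootsL_cat q40 l40 h41
  have l39 : 461 + c39.length = 471 := by decide +kernel
  have h39 : rootsL gl 461 s39 = r39 ++ _ := rootsL_cat q39 l39 h40
  have l38 : 451 + c38.length = 461 := by decide +kernel
  have h38 : rootsL gl 451 s38 = r38 ++ _ := rootsL_cat q38 l38 h39
  have l37 : 441 + c37.length = 451 := by decide +kernel
  have h37 : rootsL gl 441 s37 = r37 ++ _ := rootsL_cat q37 l37 h38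
  have l36 : 430 + c36.length = 441 := by decide +kernel
  have h36 : rootsL gl 430 s36 = r36 ++ _ := rootsL_cat q36 l36 h37
  have l35 : 419 + c35.length = 430 := by decide +kernel
  have h35 : rootsL gl 419 s35 = r35 ++ _ := rootsL_cat q35 l35 h36
  have l34 : 410 + c34.length = 419 := by decide +kernel
  have h34 : rootsL gl 410 s34 = r34 ++ _ := rootsL_cat q34 l34 h35
  have l33 : 398 + c33.length = 410 := by decide +kernel
  have h33 : rootsL gl 398 s33 = r33 ++ _ := rootsL_cat q33 l33 h34
  have l32 : 390 + c32.length = 398 := by decide +kernel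
  have h32 : rootsL gl 390 s32 = r32 ++ _ := rootsL_cat q32 l32 h33
  have l31 : 381 + c31.length = 390 := by decide +kernel
  have h31 : rootsL gl 381 s31 = r31 ++ _ := rootsL_cat q31 l31 h32
  have l30 : 370 + c30.length = 381 := by decide +kernel
  have h30 : rootsL gl 370 s30 = r30 ++ _ := rootsL_cat q30 l30 h31
  have l29 : 359 + c29.length = 370 := by decide +kernel
  have h29 : rootsL gl 359 s29 = r29 ++ _ := rootsL_cat q29 l29 h30
  have l28 : 348 + c28.length = 359 := by decide +kernel
  have h28 : rootsL gl 348 s28 = r28 ++ _ := rootsL_cat q28 l28 h29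
  have l27 : 336 + c27.length = 348 := by decide +kernel
  have h27 : rootsL gl 336 s27 = r27 ++ _ := rootsL_cat q27 l27 h28
  have l26 : 325 + c26.length = 336 := by decide +kernel
  have h26 : rootsL gl 325 s26 = r26 ++ _ := rootsL_cat q26 l26 h27
  have l25 : 311 + c25.length = 325 := by decide +kernel
  have h25 : rootsL gl 311 s25 = r25 ++ _ := rootsL_cat q25 l25 h26
  have l24 : 297 + c24.length = 311 := by decide +kernel
  have h24 : rootsL gl 297 s24 = r24 ++ _ := rootsL_cat q24 l24 h25
  have l23 : 285 + c23.length = 297 := by decide +kernel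
  have h23 : rootsL gl 285 s23 = r23 ++ _ := rootsL_cat q23 l23 h24
  have l22 : 271 + c22.length = 285 := by decide +kernel
  have h22 : rootsL gl 271 s22 = r22 ++ _ := rootsL_cat q22 l22 h23
  have l21 : 257 + c21.length = 271 := by decide +kernel
  have h21 : rootsL gl 257 s21 = r21 ++ _ := rootsL_cat q21 l21 h22
  have l20 : 245 + c20.length = 257 := by decide +kernel
  have h20 : rootsL gl 245 s20 = r20 ++ _ := rootsL_cat q20 l20 h21
  have l19 : 233 + c19.length = 245 := by decide +kernel
  have h19 : rootsL gl 233 s19 = r19 ++ _ := rootsL_cat q19 l19 h20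
  have l18 : 220 + c18.length = 233 := by decide +kernel
  have h18 : rootsL gl 220 s18 = r18 ++ _ := rootsL_cat q18 l18 h19
  have l17 : 206 + c17.length = 220 := by decide +kernel
  have h17 : rootsL gl 206 s17 = r17 ++ _ := rootsL_cat q17 l17 h18
  have l16 : 192 + c16.length = 206 := by decide +kernel
  have h16 : rootsL gl 192 s16 = r16 ++ _ := rootsL_cat q16 l16 h17
  have l15 : 178 + c15.length = 192 := by decide +kernel
  have h15 : rootsL gl 178 s15 = r15 ++ _ := rootsL_cat q15 l15 h16
  have l14 : 164 + c14.length = 178 := by decide +kernel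
  have h14 : rootsL gl 164 s14 = r14 ++ _ := rootsL_cat q14 l14 h15
  have l13 : 150 + c13.length = 164 := by decide +kernel
  have h13 : rootsL gl 150 s13 = r13 ++ _ := rootsL_cat q13 l13 h14
  have l12 : 136 + c12.length = 150 := by decide +kernel
  have h12 : rootsL gl 136 s12 = r12 ++ _ := rootsL_cat q12 l12 h13
  have l11 : 122 + c11.length = 136 := by decide +kernel
  have h11 : rootsL gl 122 s11 = r11 ++ _ := rootsL_cat q11 l11 h12
  have l10 : 110 + c10.length = 122 := by decide +kernel
  have h10 : rootsL gl 110 s10 = r10 ++ _ := rootsL_cat q10 l10 h11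
  have l9 : 98 + c9.length = 110 := by decide +kernel
  have h9 : rootsL gl 98 s9 = r9 ++ _ := rootsL_cat q9 l9 h10
  have l8 : 88 + c8.length = 98 := by decide +kernel
  have h8 : rootsL gl 88 s8 = r8 ++ _ := rootsL_cat q8 l8 h9
  have l7 : 79 + c7.length = 88 := by decide +kernel
  have h7 : rootsL gl 79 s7 = r7 ++ _ := rootsL_cat q7 l7 h8
  have l6 : 70 + c6.length = 79 := by decide +kernel
  have h6 : rootsL gl 70 s6 = r6 ++ _ := rootsL_cat q6 l6 h7
  have l5 : 59 + c5.length = 70 := by decide +kernel
  have h5 : rootsL gl 59 s5 = r5 ++ _ := rootsL_cat q5 l5 h6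
  have l4 : 48 + c4.length = 59 := by decide +kernel
  have h4 : rootsL gl 48 s4 = r4 ++ _ := rootsL_cat q4 l4 h5
  have l3 : 37 + c3.length = 48 := by decide +kernel
  have h3 : rootsL gl 37 s3 = r3 ++ _ := rootsL_cat q3 l3 h4
  have l2 : 26 + c2.length = 37 := by decide +kernel
  have h2 : rootsL gl 26 s2 = r2 ++ _ := rootsL_cat q2 l2 h3
  have l1 : 14 + c1.length = 26 := by decide +kernel
  have h1 : rootsL gl 14 s1 = r1 ++ _ := rootsL_cat q1 l1 h2
  have l0 : 0 + c0.length = 14 := by decide +kernel
  have h0 : rootsL gl 0 s0 = r0 ++ _ := rootsL_cat q0 l0 h1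
  exact h0

theorem rok : rootsOK gl (rootsP gl ++ rootsL gl 0 s0) = true := by
  rw [rts]
  decide +kernel

theorem pok : poleF gl s0 = true := by decide +kernel

theorem len0 : 3 ≤ s0.length := by decide +kernel

theorem comb : Comb (certOf gl s0) :=
  comb_sound (by decide +kernel) gl_ok colsC kFirst kLast kAll rok pok

theorem cert : ∃ F : MvPolynomial (Fin 3) ℝ, F.IsHomogeneous 8 ∧ Nonsingular F ∧
    HasArrangement F gl.par.length (nestOf gl.par) :=
  final (by decide) (by norm_num) gl_ok comb ana

end Oct.CC
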